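import Pool.Agent.Helper63.Hyp6.Rep

namespace Pool.Agent.Helper63.Hyp6

theorem bx0 (a : BitVec 6) : a ^^^ 0 = a := by simp

theorem b0x (a : BitVec 6) : 0 ^^^ a = a := by simp

theorem baax (a x : BitVec 6) : a ^^^ (a ^^^ x) = x := by
  rw [← BitVec.xor_assoc, BitVec.xor_self, BitVec.zero_xor]

/-- translation of six bit vectors -/
def xorE (a : BitVec 6) : Equiv.Perm (BitVec 6) where
  toFun x := a ^^^ x
  invFun x := a ^^^ x
  left_inv x := baax a x
  right_inv x := baax a x

theorem xorE_apply (a x : BitVec 6) : xorE a x = a ^^^ x := rfl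

def sx (x : BitVec 6) : BitVec 6 := x ^^^ (x <<< 1) ^^^ 1#6

def sxi (x : BitVec 6) : BitVec 6 := sx (sx (sx (sx (sx (sx (sx x))))))

def SX : Equiv.Perm (BitVec 6) where
  toFun := sx
  invFun := sxi
  left_inv := by decide +kernel
  right_inv := by decide +kernel

theorem SX_pow : SX ^ 8 = 1 := by
  apply Equiv.ext
  have h : ∀ x, sx (sx (sx (sx (sx (sx (sx (sx x))))))) = x := by decide +kernel
  intro x
  exact h x

theorem SX_xorE (s : Fin 27) : SX * xorE (lam s) = xorE (lam (sig s)) * SX := by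
  apply Equiv.ext
  have h : ∀ s x, sx (lam s ^^^ x) = lam (sig s) ^^^ sx x := by decide +kernel
  intro x
  exact h s x

noncomputable def fX : W →* Equiv.Perm (BitVec 6) := cs.lift ⟨fun s => xorE (lam s), by
  apply liftable_of
  · intro s
    apply Equiv.ext
    intro x
    rw [Equiv.Perm.mul_apply, xorE_apply, xorE_apply, ← BitVec.xor_assoc, BitVec.xor_self,
      BitVec.zero_xor]
    rfl
  · intro s t _
    apply Equiv.ext
    intro x
    rw [Equiv.Perm.mul_apply, Equiv.Perm.mul_apply, xorE_apply, xorE_apply, xorE_apply, xorE_apply,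
      ← BitVec.xor_assoc, ← BitVec.xor_assoc, BitVec.xor_comm (lam s)]⟩

theorem fX_sm (s : Fin 27) : fX (sm s) = xorE (lam s) := cs.lift_apply_simple _ s

theorem fX_apply (w : W) (x : BitVec 6) : fX w x = fX w 0 ^^^ x := by
  induction w using cs.simple_induction generalizing x with
  | simple s => rw [fX_sm, xorE_apply, xorE_apply, bx0]
  | one => rw [map_one, Equiv.Perm.one_apply, Equiv.Perm.one_apply, b0x]
  | mul w w' h h' =>
    rw [map_mul, Equiv.Perm.mul_apply, Equiv.Perm.mul_apply, h, h' x, h (fX w' 0), BitVec.xor_assoc]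

noncomputable def actX : GG →* Equiv.Perm (BitVec 6) :=
  liftM fX SX SX_pow (fun s => by rw [fX_sm, fX_sm, SX_xorE])

theorem actX_apply (g : GG) (x : BitVec 6) : actX g x = fX g.left (pw SX g.right x) := rfl

/-- the affine involutions of `ZMod n` -/
def refY (n : ℕ) (c : ZMod n) : Equiv.Perm (ZMod n) where
  toFun y := c - y
  invFun y := c - y
  left_inv y := by ring
  right_inv y := by ring

theorem refY_apply (n : ℕ) (c y : ZMod n) : refY n c y = c - y := rfl

def gY (n : ℕ) (s : Fin 27) : Equiv.Perm (ZMod n) :=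
  if s = 4 then refY n 0 else if s = 18 then refY n 2 else 1

theorem refY_sq (n : ℕ) (c : ZMod n) : refY n c * refY n c = 1 := by
  apply Equiv.ext
  intro y
  rw [Equiv.Perm.mul_apply, refY_apply, refY_apply]
  simp

theorem gY_sq (n : ℕ) (s : Fin 27) : gY n s * gY n s = 1 := by
  unfold gY
  split_ifs
  · exact refY_sq n _
  · exact refY_sq n _
  · exact one_mul _

theorem gY_comm (n : ℕ) (s t : Fin 27) (h : adj s t) : gY n s * gY n t = gY n t * gY n s := by
  have h1 : ∀ s t, adj s t → ¬ (s = 4 ∧ t = 18) ∧ ¬ (s = 18 ∧ t = 4) := by decide +kernel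
  obtain ⟨h2, h3⟩ := h1 s t h
  unfold gY
  by_cases a : s = 4
  · by_cases b : t = 4
    · rw [if_pos a, if_pos b]
    · by_cases c : t = 18
      · exact absurd ⟨a, c⟩ h2
      · rw [if_pos a, if_neg b, if_neg c, one_mul, mul_one]
  · by_cases d : s = 18
    · by_cases b : t = 4
      · exact absurd ⟨d, b⟩ h3
      · by_cases c : t = 18
        · rw [if_neg a, if_pos d, if_neg b, if_pos c]
        · rw [if_neg a, if_pos d, if_neg b, if_neg c, one_mul, mul_one]
    · rw [if_neg a, if_neg d, one_mul, mul_one]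

noncomputable def fY (n : ℕ) : W →* Equiv.Perm (ZMod n) := cs.lift ⟨gY n, by
  apply liftable_of
  · exact gY_sq n
  · exact gY_comm n⟩

theorem fY_sm (n : ℕ) (s : Fin 27) : fY n (sm s) = gY n s := cs.lift_apply_simple _ s

theorem refY_pow (n : ℕ) (c : ZMod n) : refY n c ^ 8 = 1 := by
  have h : refY n c ^ 8 = (refY n c * refY n c) ^ 4 := by
    rw [← pow_two, ← pow_mul]
  rw [h, refY_sq, one_pow]

noncomputable def actY (n : ℕ) : GG →* Equiv.Perm (ZMod n) :=
  liftM (fY n) (refY n 1) (refY_pow n 1) (fun s => by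
    rw [fY_sm, fY_sm]
    unfold gY
    have h1 : ∀ s, (sig s = 4 ↔ s = 18) ∧ (sig s = 18 ↔ s = 4) := by decide +kernel
    obtain ⟨h2, h3⟩ := h1 s
    by_cases a : s = 4
    · subst a
      rw [if_pos rfl, if_neg (by rw [h2]; decide), if_pos (by rw [h3])]
      apply Equiv.ext
      intro y
      rw [Equiv.Perm.mul_apply, Equiv.Perm.mul_apply, refY_apply, refY_apply, refY_apply,
        refY_apply]
      ring
    · by_cases b : s = 18
      · subst b
        rw [if_neg a, if_pos rfl, if_pos (by rw [h2])]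
        apply Equiv.ext
        intro y
        rw [Equiv.Perm.mul_apply, Equiv.Perm.mul_apply, refY_apply, refY_apply, refY_apply,
          refY_apply]
        ring
      · rw [if_neg a, if_neg b, if_neg (by rw [h2]; exact b), if_neg (by rw [h3]; exact a),
          mul_one, one_mul])

theorem actY_apply (n : ℕ) (g : GG) (y : ZMod n) :
    actY n g y = fY n g.left (pw (refY n 1) g.right y) := rfl

/-- the groups of the manifolds -/
noncomputable def Gam (n : ℕ) : Subgroup GG where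
  carrier := {g | actX g 0 = 0 ∧ actY n g 0 = 0}
  one_mem' := by
    constructor
    · rw [map_one]; rfl
    · rw [map_one]; rfl
  mul_mem' := by
    rintro a b ⟨h1, h2⟩ ⟨h3, h4⟩
    constructor
    · rw [map_mul, Equiv.Perm.mul_apply, h3, h1]
    · rw [map_mul, Equiv.Perm.mul_apply, h4, h2]
  inv_mem' := by
    rintro a ⟨h1, h2⟩
    constructor
    · rw [map_inv, Equiv.Perm.inv_eq_iff_eq, h1]
    · rw [map_inv, Equiv.Perm.inv_eq_iff_eq, h2]

theorem mem_Gam {n : ℕ} {g : GG} : g ∈ Gam n ↔ actX g 0 = 0 ∧ actY n g 0 = 0 := Iff.rfl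

/-! ### transitivity -/

theorem exists_W (n : ℕ) (x : BitVec 6) : ∃ w : W, fX w 0 = x ∧ fY n w = 1 := by
  have hmul : ∀ a b : BitVec 6, (∃ w : W, fX w 0 = a ∧ fY n w = 1) →
      (∃ w : W, fX w 0 = b ∧ fY n w = 1) → ∃ w : W, fX w 0 = a ^^^ b ∧ fY n w = 1 := by
    rintro a b ⟨w, h1, h2⟩ ⟨w', h3, h4⟩
    refine ⟨w * w', ?_, ?_⟩
    · rw [map_mul, Equiv.Perm.mul_apply, fX_apply, h1, h3]
    · rw [map_mul, h2, h4, mul_one]
  have hgen : ∀ s, s ≠ 4 → s ≠ 18 → ∃ w : W, fX w 0 = lam s ∧ fY n w = 1 := by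
    intro s h4 h18
    refine ⟨sm s, ?_, ?_⟩
    · rw [fX_sm, xorE_apply, bx0]
    · rw [fY_sm]
      unfold gY
      rw [if_neg h4, if_neg h18]
  have h0 : ∃ w : W, fX w 0 = 0 ∧ fY n w = 1 := ⟨1, by rw [map_one]; rfl, map_one _⟩
  have e0 : ∃ w : W, fX w 0 = 1#6 ∧ fY n w = 1 := hgen 0 (by decide) (by decide)
  have e1 : ∃ w : W, fX w 0 = 2#6 ∧ fY n w = 1 :=
    hmul _ _ e0 (hgen 2 (by decide) (by decide))
  have e2 : ∃ w : W, fX w 0 = 4#6 ∧ fY n w = 1 :=
    hmul _ _ e0 (hgen 3 (by decide) (by decide))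
  have e4 : ∃ w : W, fX w 0 = 16#6 ∧ fY n w = 1 :=
    hmul _ _ e0 (hgen 8 (by decide) (by decide))
  have e3 : ∃ w : W, fX w 0 = 8#6 ∧ fY n w = 1 :=
    hmul _ _ (hmul _ _ e1 e2) (hgen 9 (by decide) (by decide))
  have e5 : ∃ w : W, fX w 0 = 32#6 ∧ fY n w = 1 :=
    hmul _ _ (hmul _ _ e1 e4) (hgen 10 (by decide) (by decide))
  have hbit : ∀ (b : Bool) (e : BitVec 6), (∃ w : W, fX w 0 = e ∧ fY n w = 1) →
      ∃ w : W, fX w 0 = (if b then e else 0) ∧ fY n w = 1 := by
    intro b e he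
    cases b
    · exact h0
    · exact he
  have hdec : ∀ x : BitVec 6, ((((((if x.getLsbD 0 then 1#6 else 0) ^^^
      (if x.getLsbD 1 then 2#6 else 0)) ^^^ (if x.getLsbD 2 then 4#6 else 0)) ^^^
      (if x.getLsbD 3 then 8#6 else 0)) ^^^ (if x.getLsbD 4 then 16#6 else 0)) ^^^
      (if x.getLsbD 5 then 32#6 else 0)) = x := by decide +kernel
  rw [← hdec x]
  exact hmul _ _ (hmul _ _ (hmul _ _ (hmul _ _ (hmul _ _ (hbit _ _ e0) (hbit _ _ e1))
    (hbit _ _ e2)) (hbit _ _ e3)) (hbit _ _ e4)) (hbit _ _ e5)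

theorem exists_GG (n : ℕ) [NeZero n] (x : BitVec 6) (y : ZMod n) :
    ∃ g : GG, actX g 0 = x ∧ actY n g 0 = y := by
  have h1 : ∀ k : ℕ, ∃ g : GG, actY n g 0 = (k : ZMod n) := by
    intro k
    induction k with
    | zero => exact ⟨1, by rw [map_one]; simp⟩
    | succ k ih =>
      obtain ⟨g, hg⟩ := ih
      refine ⟨SemidirectProduct.inr (Multiplicative.ofAdd 1) *
        (SemidirectProduct.inl (sm 4) * g), ?_⟩
      rw [map_mul, map_mul, Equiv.Perm.mul_apply, Equiv.Perm.mul_apply, hg]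
      have h2 : ∀ y, actY n (SemidirectProduct.inl (sm 4)) y = -y := by
        intro y
        rw [actY_apply, SemidirectProduct.left_inl, SemidirectProduct.right_inl, pw_one, fY_sm]
        unfold gY
        rw [if_pos rfl, refY_apply, Equiv.Perm.one_apply, zero_sub]
      have h3 : ∀ y, actY n (SemidirectProduct.inr (Multiplicative.ofAdd 1)) y = 1 - y := by
        intro y
        rw [actY_apply, SemidirectProduct.left_inr, SemidirectProduct.right_inr, map_one,
          Equiv.Perm.one_apply]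
        unfold pw
        have h4 : (Multiplicative.toAdd (Multiplicative.ofAdd (1 : ZMod 8))).val = 1 := rfl
        rw [h4, pow_one, refY_apply]
      rw [h2, h3]
      push_cast
      ring
  obtain ⟨g, hg⟩ := h1 y.val
  rw [ZMod.natCast_zmod_val] at hg
  obtain ⟨w, hw1, hw2⟩ := exists_W n (x ^^^ actX g 0)
  refine ⟨SemidirectProduct.inl w * g, ?_, ?_⟩
  · rw [map_mul, Equiv.Perm.mul_apply, actX_apply, SemidirectProduct.left_inl,
      SemidirectProduct.right_inl, pw_one, Equiv.Perm.one_apply, fX_apply, hw1, BitVec.xor_assoc,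
      BitVec.xor_self, BitVec.xor_zero]
  · rw [map_mul, Equiv.Perm.mul_apply, actY_apply, SemidirectProduct.left_inl,
      SemidirectProduct.right_inl, pw_one, Equiv.Perm.one_apply, hw2, hg]
    rfl

end Pool.Agent.Helper63.Hyp6
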