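import Pool.Agent.Helper63.Hyp6.Chain

namespace Pool.Agent.Helper63.Hyp6

/-- parity character -/
noncomputable def par : W →* ℚ :=
  cs.lift ⟨fun _ => (-1 : ℚ), by
    apply liftable_of
    · intro s
      norm_num
    · intro s t _
      rfl⟩

theorem par_sm (s : Fin 27) : par (sm s) = -1 := cs.lift_apply_simple _ s

theorem par_mul_self (w : W) : par w * par w = 1 := by
  induction w using cs.simple_induction with
  | simple s => rw [par_sm]; norm_num
  | one => rw [map_one, one_mul]
  | mul w w' h h' =>
    rw [map_mul]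
    calc par w * par w' * (par w * par w') = (par w * par w) * (par w' * par w') := by ring
      _ = 1 := by rw [h, h', one_mul]

theorem par_ne_zero (w : W) : par w ≠ 0 := by
  intro h
  have := par_mul_self w
  rw [h] at this
  norm_num at this

theorem par_inv (w : W) : par w⁻¹ = par w := by
  have h1 : par w * par w⁻¹ = 1 := by rw [← map_mul, mul_inv_cancel, map_one]
  have h2 := par_mul_self w
  exact mul_left_cancel₀ (par_ne_zero w) (h1.trans h2.symm)

/-- twisted augmentation -/
noncomputable def aug (f : W → Finset (Fin 27) → ℚ) : ℚ := ∑ᶠ u : W, par u * f u ∅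

theorem fin_supp {k : ℕ} {f : W → Finset (Fin 27) → ℚ} (hf : IsChain k f)
    (T : Finset (Fin 27)) : (Function.support (fun u : W => par u * f u T)).Finite := by
  apply hf.fin.subset
  intro u hu
  exact ⟨T, fun h => hu (by simp only; rw [h, mul_zero])⟩

theorem aug_bd {y : W → Finset (Fin 27) → ℚ} (hy : IsChain 1 y) : aug (bd y) = 0 := by
  unfold aug
  have h1 : ∀ u : W, par u * bd y u ∅ = ∑ s : Fin 27, par u * y u {s} := by
    intro u
    unfold bd
    rw [Finset.mul_sum, Finset.compl_empty]
    apply Finset.sum_congr rfl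
    intro s _
    rw [eta_empty, one_mul]
    rfl
  simp_rw [h1]
  rw [finsum_sum_comm _ _ (fun s _ => fin_supp hy {s})]
  apply Finset.sum_eq_zero
  intro s _
  have h2 : ∑ᶠ u : W, par u * y u {s} = - ∑ᶠ u : W, par u * y u {s} := by
    conv_lhs => rw [← finsum_comp_equiv (Equiv.mulRight (sm s))]
    rw [← finsum_neg_distrib]
    apply finsum_congr
    intro u
    simp only [Equiv.coe_mulRight]
    rw [hy.flip u {s} s (Finset.mem_singleton_self s), map_mul, par_sm]
    ring
  linarith

theorem exact_zero {f : W → Finset (Fin 27) → ℚ} (hf : IsChain 0 f) (haug : aug f = 0) :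
    ∃ y, IsChain 1 y ∧ ∀ u T, bd y u T = f u T := by
  have hbd : ∀ u R, bd f u R = 0 := by
    intro u R
    unfold bd
    apply Finset.sum_eq_zero
    intro s _
    by_contra h
    have h1 : f u (insert s R) ≠ 0 := fun h1 => h (by rw [h1, mul_zero])
    have h2 := hf.card _ _ h1
    rw [Finset.card_eq_zero] at h2
    exact Finset.insert_ne_empty _ _ h2
  obtain ⟨y, hy1, hy2⟩ := reduce' hf hbd
  have hy3 := hy1.bd
  have hone : bd y 1 ∅ = f 1 ∅ := by
    have h1 := aug_bd hy1
    have h2 : aug f - aug (bd y) = par 1 * (f 1 ∅ - bd y 1 ∅) := by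
      unfold aug
      rw [← finsum_sub_distrib (fin_supp hf ∅) (fin_supp hy3 ∅)]
      rw [finsum_eq_single _ (1 : W)]
      · ring
      · intro u hu
        rw [hy2 u ∅ (Finset.empty_subset _) hu]
        ring
    rw [h1, haug, map_one] at h2
    linarith
  refine ⟨y, hy1, fun u T => ?_⟩
  by_cases hT : T = ∅
  · subst hT
    by_cases hu : u = 1
    · rw [hu, hone]
    · exact hy2 u ∅ (Finset.empty_subset _) hu
  · have h1 : bd y u T = 0 := by
      by_contra h
      exact hT (Finset.card_eq_zero.1 (hy3.card _ _ h))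
    have h2 : f u T = 0 := by
      by_contra h
      exact hT (Finset.card_eq_zero.1 (hf.card _ _ h))
    rw [h1, h2]

end Pool.Agent.Helper63.Hyp6
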