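import Pool.Agent.Helper63.Hyp6.Top

namespace Pool.Agent.Helper63.Hyp6

/-- table of a `sig`-invariant orientation of the orthogonality graph -/
def chiMask : Fin 27 → ℕ :=
  ![528416, 32773, 524545, 81959, 34132399, 4102, 109083068, 4227370, 524322, 80028142, 46679006,
    35909817, 33028, 8392749, 34091013, 289, 41123, 39437467, 13218087, 36866, 13461007, 48230401,
    34177282, 4739332, 116616904, 8950144, 48609696]

def chib (s t : Fin 27) : Bool := (chiMask s).testBit t.val

theorem chib_anti : ∀ s t, adj s t → chib t s = !(chib s t) := by decide +kernel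

theorem chib_sig : ∀ s t, adj s t → chib (sig s) (sig t) = chib s t := by decide +kernel

def chi (s t : Fin 27) : ℚ := if chib s t then -1 else 1

theorem chi_sq (s t : Fin 27) : chi s t * chi s t = 1 := by
  unfold chi
  split_ifs <;> norm_num

theorem chi_anti {s t : Fin 27} (h : adj s t) : chi t s = - chi s t := by
  unfold chi
  rw [chib_anti s t h]
  cases chib s t <;> simp

theorem chi_sig {s t : Fin 27} (h : adj s t) : chi (sig s) (sig t) = chi s t := by
  unfold chi
  rw [chib_sig s t h]

/-- incidence sign of the facet `R` in `R ∪ {s}` -/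
def eta (R : Finset (Fin 27)) (s : Fin 27) : ℚ := ∏ b ∈ R, chi s b

theorem eta_sq (R : Finset (Fin 27)) (s : Fin 27) : eta R s * eta R s = 1 := by
  unfold eta
  rw [← Finset.prod_mul_distrib]
  exact Finset.prod_eq_one (fun b _ => chi_sq s b)

theorem eta_insert {R : Finset (Fin 27)} {t : Fin 27} (h : t ∉ R) (s : Fin 27) :
    eta (insert t R) s = chi s t * eta R s := by
  unfold eta
  rw [Finset.prod_insert h]

theorem eta_empty (s : Fin 27) : eta ∅ s = 1 := by
  unfold eta
  simp

/-- boundary operator on functions -/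
def bd (f : W → Finset (Fin 27) → ℚ) (u : W) (R : Finset (Fin 27)) : ℚ :=
  ∑ s ∈ Rᶜ, eta R s * f u (insert s R)

/-- cubical chains of degree `k`, as functions on the pairs (vertex, directions) -/
structure IsChain (k : ℕ) (f : W → Finset (Fin 27) → ℚ) : Prop where
  clique : ∀ u T, f u T ≠ 0 → IsClique T
  card : ∀ u T, f u T ≠ 0 → T.card = k
  flip : ∀ u T t, t ∈ T → f (u * sm t) T = f u T
  fin : {u : W | ∃ T, f u T ≠ 0}.Finite

theorem IsChain.zero (k : ℕ) : IsChain k (fun _ _ => 0) where
  clique u T h := absurd rfl h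
  card u T h := absurd rfl h
  flip _ _ _ _ := rfl
  fin := by simp

theorem IsChain.add {k : ℕ} {f g : W → Finset (Fin 27) → ℚ} (hf : IsChain k f)
    (hg : IsChain k g) : IsChain k (fun u T => f u T + g u T) where
  clique u T h := by
    by_cases h1 : f u T = 0
    · by_cases h2 : g u T = 0
      · exact absurd (by rw [h1, h2, add_zero]) h
      · exact hg.clique u T h2
    · exact hf.clique u T h1
  card u T h := by
    by_cases h1 : f u T = 0
    · by_cases h2 : g u T = 0
      · exact absurd (by rw [h1, h2, add_zero]) h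
      · exact hg.card u T h2
    · exact hf.card u T h1
  flip u T t ht := by rw [hf.flip u T t ht, hg.flip u T t ht]
  fin := by
    apply (hf.fin.union hg.fin).subset
    rintro u ⟨T, hT⟩
    by_cases h1 : f u T = 0
    · by_cases h2 : g u T = 0
      · exact absurd (by rw [h1, h2, add_zero]) hT
      · exact Or.inr ⟨T, h2⟩
    · exact Or.inl ⟨T, h1⟩

theorem IsChain.smul {k : ℕ} {f : W → Finset (Fin 27) → ℚ} (c : ℚ) (hf : IsChain k f) :
    IsChain k (fun u T => c * f u T) where
  clique u T h := hf.clique u T (fun h1 => h (by rw [h1, mul_zero]))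
  card u T h := hf.card u T (fun h1 => h (by rw [h1, mul_zero]))
  flip u T t ht := by rw [hf.flip u T t ht]
  fin := by
    apply hf.fin.subset
    rintro u ⟨T, hT⟩
    exact ⟨T, fun h1 => hT (by rw [h1, mul_zero])⟩

theorem IsChain.bd {k : ℕ} {f : W → Finset (Fin 27) → ℚ} (hf : IsChain (k + 1) f) :
    IsChain k (bd f) := by
  have key : ∀ u R, Hyp6.bd f u R ≠ 0 → ∃ s ∉ R, f u (insert s R) ≠ 0 := by
    intro u R h
    obtain ⟨s, hs, h1⟩ := Finset.exists_ne_zero_of_sum_ne_zero h
    exact ⟨s, Finset.mem_compl.1 hs, fun h2 => h1 (by rw [h2, mul_zero])⟩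
  refine ⟨?_, ?_, ?_, ?_⟩
  · intro u R h
    obtain ⟨s, _, h1⟩ := key u R h
    exact (hf.clique u _ h1).mono (Finset.subset_insert _ _)
  · intro u R h
    obtain ⟨s, hs, h1⟩ := key u R h
    have := hf.card u _ h1
    rw [Finset.card_insert_of_notMem hs] at this
    omega
  · intro u R t ht
    unfold Hyp6.bd
    apply Finset.sum_congr rfl
    intro s _
    rw [hf.flip u _ t (Finset.mem_insert_of_mem ht)]
  · apply hf.fin.subset
    rintro u ⟨R, hR⟩
    obtain ⟨s, _, h1⟩ := key u R hR
    exact ⟨_, h1⟩

theorem bd_add (f g : W → Finset (Fin 27) → ℚ) (u : W) (R : Finset (Fin 27)) :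
    bd (fun u T => f u T + g u T) u R = bd f u R + bd g u R := by
  unfold bd
  rw [← Finset.sum_add_distrib]
  apply Finset.sum_congr rfl
  intro s _
  ring

theorem bd_smul (c : ℚ) (f : W → Finset (Fin 27) → ℚ) (u : W) (R : Finset (Fin 27)) :
    bd (fun u T => c * f u T) u R = c * bd f u R := by
  unfold bd
  rw [Finset.mul_sum]
  apply Finset.sum_congr rfl
  intro s _
  ring

theorem bd_bd {f : W → Finset (Fin 27) → ℚ} (hf : ∀ u T, f u T ≠ 0 → IsClique T) (u : W)
    (R : Finset (Fin 27)) : bd (bd f) u R = 0 := by
  classical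
  set G : Fin 27 → Fin 27 → ℚ := fun s t =>
    if s ∈ Rᶜ ∧ t ∈ (insert s R)ᶜ then
      eta R s * (eta (insert s R) t * f u (insert t (insert s R))) else 0 with hG
  have h1 : bd (bd f) u R = ∑ s : Fin 27, ∑ t : Fin 27, G s t := by
    unfold bd
    rw [← Finset.sum_subset (Finset.subset_univ Rᶜ)]
    · apply Finset.sum_congr rfl
      intro s hs
      rw [Finset.mul_sum, ← Finset.sum_subset (Finset.subset_univ (insert s R)ᶜ)]
      · apply Finset.sum_congr rfl
        intro t ht
        rw [hG]
        simp only
        rw [if_pos ⟨hs, ht⟩]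
      · intro t _ ht
        rw [hG]
        simp only
        rw [if_neg (fun h => ht h.2)]
    · intro s _ hs
      apply Finset.sum_eq_zero
      intro t _
      rw [hG]
      simp only
      rw [if_neg (fun h => hs h.1)]
  have h2 : ∀ s t, G s t = - G t s := by
    intro s t
    rw [hG]
    simp only [Finset.mem_compl, Finset.mem_insert, not_or]
    by_cases hc : s ∉ R ∧ t ≠ s ∧ t ∉ R
    · rw [if_pos ⟨hc.1, hc.2⟩, if_pos ⟨hc.2.2, Ne.symm hc.2.1, hc.1⟩]
      have h3 : insert s (insert t R) = insert t (insert s R) := Finset.insert_comm s t R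
      rw [h3, eta_insert hc.1, eta_insert hc.2.2]
      by_cases h4 : f u (insert t (insert s R)) = 0
      · rw [h4]; ring
      · have h5 : adj s t := (hf u _ h4) s (by simp) t (by simp) (Ne.symm hc.2.1)
        rw [chi_anti h5]
        ring
    · rw [if_neg (by tauto), if_neg (by tauto), neg_zero]
  have h3 : ∑ s : Fin 27, ∑ t : Fin 27, G s t = - ∑ s : Fin 27, ∑ t : Fin 27, G s t := by
    conv_lhs => rw [Finset.sum_comm]
    rw [← Finset.sum_neg_distrib]
    apply Finset.sum_congr rfl
    intro s _
    rw [← Finset.sum_neg_distrib]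
    apply Finset.sum_congr rfl
    intro t _
    exact h2 t s
  rw [h1]
  linarith

/-- a chosen descent -/
noncomputable def s0 (u : W) : Fin 27 := by
  classical exact if h : (D u).Nonempty then h.choose else 0

theorem s0_mem {u : W} (h : u ≠ 1) : s0 u ∈ D u := by
  unfold s0
  have h1 : (D u).Nonempty := by
    rw [Finset.nonempty_iff_ne_empty]
    exact fun h2 => h (eq_one_of_D h2)
  rw [dif_pos h1]
  exact h1.choose_spec

theorem length_mul_pr (v : W) {F : Finset (Fin 27)} (hF : IsClique F) (h : ∀ s ∈ F, s ∉ D v) :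
    cs.length (v * pr F) = cs.length v + F.card := by
  induction F using Finset.induction_on generalizing v with
  | empty => rw [pr_empty, mul_one]; simp
  | insert t F ht ih =>
    rw [pr_insert hF ht, ← mul_assoc, ih (v * sm t) (hF.mono (Finset.subset_insert _ _)),
      length_of_notMem_D (h t (Finset.mem_insert_self _ _)), Finset.card_insert_of_notMem ht]
    · ring
    · intro s hs
      have hst : s ≠ t := fun h1 => ht (h1 ▸ hs)
      rw [D_mul_adj v (adj_symm (adj_of_insert hF hs (Ne.symm hst)))]
      exact h s (Finset.mem_insert_of_mem hs)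

theorem length_le_top (v : W) {T : Finset (Fin 27)} (hT : IsClique T) :
    cs.length v ≤ cs.length (top v T) := by
  unfold top
  rw [length_mul_pr v (hT.mono Finset.sdiff_subset)]
  · omega
  · intro s hs
    exact (Finset.mem_sdiff.1 hs).2

theorem IsChain.top {k : ℕ} {f : W → Finset (Fin 27) → ℚ} (hf : IsChain k f) (u : W)
    {T : Finset (Fin 27)} (hT : IsClique T) : f (top u T) T = f u T := by
  have key : ∀ F : Finset (Fin 27), F ⊆ T → ∀ u, f (u * pr F) T = f u T := by
    intro F
    induction F using Finset.induction_on with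
    | empty => intro _ u; rw [pr_empty, mul_one]
    | insert t F ht ih =>
      intro hF u
      rw [pr_insert (hT.mono hF) ht, ← mul_assoc, ih ((Finset.subset_insert _ _).trans hF),
        hf.flip u T t (hF (Finset.mem_insert_self _ _))]
  exact key _ Finset.sdiff_subset u

/-- the partial cone in the layer of length `L` -/
noncomputable def coneL (L : ℕ) (f : W → Finset (Fin 27) → ℚ) (v : W) (T : Finset (Fin 27)) : ℚ :=
  if IsClique T ∧ cs.length (top v T) = L ∧ s0 (top v T) ∈ T then
    eta (T.erase (s0 (top v T))) (s0 (top v T)) * f (top v T) (T.erase (s0 (top v T)))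
  else 0

theorem isChain_coneL (L : ℕ) {k : ℕ} {f : W → Finset (Fin 27) → ℚ} (hf : IsChain k f) :
    IsChain (k + 1) (coneL L f) := by
  classical
  have key : ∀ v T, coneL L f v T ≠ 0 → IsClique T ∧ s0 (top v T) ∈ T ∧
      f (top v T) (T.erase (s0 (top v T))) ≠ 0 := by
    intro v T h
    unfold coneL at h
    split_ifs at h with hc
    · exact ⟨hc.1, hc.2.2, fun h1 => h (by rw [h1, mul_zero])⟩
    · exact absurd rfl h
  refine ⟨fun v T h => (key v T h).1, fun v T h => ?_, fun v T t ht => ?_, ?_⟩
  · obtain ⟨h1, h2, h3⟩ := key v T h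
    have := hf.card _ _ h3
    rw [Finset.card_erase_of_mem h2] at this
    have h4 : 0 < T.card := Finset.card_pos.2 ⟨_, h2⟩
    omega
  · by_cases hT : IsClique T
    · unfold coneL
      rw [top_mul_sm v hT ht]
    · unfold coneL
      rw [if_neg (fun h => hT h.1), if_neg (fun h => hT h.1)]
  · apply (Set.Finite.image2 (fun (u : W) (F : Finset (Fin 27)) => u * pr F) hf.fin
      (Set.toFinite Set.univ)).subset
    rintro v ⟨T, hT⟩
    obtain ⟨h1, h2, h3⟩ := key v T hT
    obtain ⟨F, _, hF2⟩ := exists_top v h1
    exact ⟨top v T, ⟨_, h3⟩, F, Set.mem_univ _, hF2.symm⟩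

theorem bd_coneL {L : ℕ} (hL : 0 < L) {k : ℕ} {f : W → Finset (Fin 27) → ℚ} (hf : IsChain k f)
    (hbd : ∀ u R, bd f u R = 0) (hv : ∀ u T, T ⊆ D u → L + 1 ≤ cs.length u → f u T = 0)
    (v : W) (R : Finset (Fin 27)) (hR : R ⊆ D v) (hlen : L ≤ cs.length v) :
    bd (coneL L f) v R = f v R := by
  classical
  rcases Nat.lt_or_ge L (cs.length v) with hlt | hge
  · rw [hv v R hR hlt]
    unfold bd
    apply Finset.sum_eq_zero
    intro s _
    have : coneL L f v (insert s R) = 0 := by
      unfold coneL
      rw [if_neg]
      rintro ⟨h1, h2, _⟩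
      have := length_le_top v h1
      omega
    rw [this, mul_zero]
  · have hlv : cs.length v = L := le_antisymm hge hlen
    have hv1 : v ≠ 1 := by
      intro h
      rw [h, cs.length_one] at hlv
      omega
    have hs0 := s0_mem hv1
    set p := s0 v with hp
    -- tops
    have htop1 : ∀ s ∈ D v, top v (insert s R) = v := fun s hs =>
      top_eq_self (Finset.insert_subset hs hR)
    have htop2 : ∀ s, s ∉ D v → ∀ R' ⊆ D v, top v (insert s R') = v * sm s := by
      intro s hs R' hR'
      unfold top
      have : insert s R' \ D v = {s} := by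
        ext x
        rw [Finset.mem_sdiff, Finset.mem_insert, Finset.mem_singleton]
        constructor
        · rintro ⟨h1 | h1, h2⟩
          · exact h1
          · exact absurd (hR' h1) h2
        · rintro rfl
          exact ⟨Or.inl rfl, hs⟩
      rw [this, pr_singleton]
    have hcone2 : ∀ s, s ∉ D v → coneL L f v (insert s R) = 0 := by
      intro s hs
      unfold coneL
      rw [if_neg]
      rintro ⟨_, h2, _⟩
      rw [htop2 s hs R hR, length_of_notMem_D hs] at h2
      omega
    have hcone1 : ∀ s ∈ D v, p ∈ insert s R → coneL L f v (insert s R) =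
        eta ((insert s R).erase p) p * f v ((insert s R).erase p) := by
      intro s hs hmem
      unfold coneL
      rw [htop1 s hs, if_pos]
      exact ⟨(isClique_D v).mono (Finset.insert_subset hs hR), hlv, hmem⟩
    have hcone3 : ∀ s ∈ D v, p ∉ insert s R → coneL L f v (insert s R) = 0 := by
      intro s hs hmem
      unfold coneL
      rw [htop1 s hs, if_neg]
      rintro ⟨_, _, h3⟩
      exact hmem h3
    by_cases hpR : p ∈ R
    · -- cycle condition
      set R' := R.erase p with hR'
      have hins : insert p R' = R := Finset.insert_erase hpR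
      have hpR' : p ∉ R' := Finset.notMem_erase p R
      have hR'D : R' ⊆ D v := (Finset.erase_subset p R).trans hR
      have hcomp : R'ᶜ = insert p Rᶜ := by
        ext x
        rw [Finset.mem_insert, Finset.mem_compl, Finset.mem_compl, hR', Finset.mem_erase]
        by_cases hx : x = p
        · simp [hx]
        · simp [hx]
      have h1 := hbd v R'
      unfold bd at h1
      rw [hcomp, Finset.sum_insert (by rw [Finset.mem_compl]; exact fun h => h hpR), hins] at h1
      have h2 : bd (coneL L f) v R =
          - eta R' p * ∑ s ∈ Rᶜ, eta R' s * f v (insert s R') := by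
        unfold bd
        rw [Finset.mul_sum]
        apply Finset.sum_congr rfl
        intro s hs
        rw [Finset.mem_compl] at hs
        have hsp : s ≠ p := fun h => hs (h ▸ hpR)
        have hsR' : s ∉ R' := fun h => hs (Finset.mem_of_mem_erase h)
        by_cases hsD : s ∈ D v
        · rw [hcone1 s hsD (Finset.mem_insert_of_mem hpR)]
          have h3 : (insert s R).erase p = insert s R' := by
            rw [Finset.erase_insert_of_ne hsp]
          rw [h3, eta_insert hsR']
          have h4 : eta R s = chi s p * eta R' s := by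
            conv_lhs => rw [← hins]
            rw [eta_insert hpR']
          rw [h4, chi_anti (D_adj hs0 hsD (Ne.symm hsp))]
          have h5 := chi_sq p s
          calc -chi p s * eta R' s * (chi p s * eta R' p * f v (insert s R'))
              = -(chi p s * chi p s) * (eta R' p * (eta R' s * f v (insert s R'))) := by ring
            _ = -eta R' p * (eta R' s * f v (insert s R')) := by rw [h5]; ring
        · rw [hcone2 s hsD]
          have h3 : f v (insert s R') = 0 := by
            by_contra h4
            have h5 := hf.clique _ _ h4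
            rw [← hf.top v h5] at h4
            apply h4
            apply hv
            · exact subset_D_top v h5
            · rw [htop2 s hsD R' hR'D, length_of_notMem_D hsD]
              omega
          rw [h3]
          ring
      rw [h2]
      have h3 : ∑ s ∈ Rᶜ, eta R' s * f v (insert s R') = - (eta R' p * f v R) := by linarith
      rw [h3]
      have h4 := eta_sq R' p
      calc -eta R' p * -(eta R' p * f v R) = (eta R' p * eta R' p) * f v R := by ring
        _ = f v R := by rw [h4, one_mul]
    · unfold bd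
      rw [Finset.sum_eq_single p]
      · rw [hcone1 p hs0 (Finset.mem_insert_self _ _), Finset.erase_insert hpR, ← mul_assoc,
          eta_sq, one_mul]
      · intro s hs hsp
        rw [Finset.mem_compl] at hs
        by_cases hsD : s ∈ D v
        · rw [hcone3 s hsD, mul_zero]
          rw [Finset.mem_insert]
          rintro (h | h)
          · exact hsp h.symm
          · exact hpR h
        · rw [hcone2 s hsD, mul_zero]
      · intro h
        exact absurd (Finset.mem_compl.2 hpR) h

theorem reduce (L : ℕ) : ∀ {k : ℕ} {f : W → Finset (Fin 27) → ℚ}, IsChain k f →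
    (∀ u R, bd f u R = 0) → (∀ u T, T ⊆ D u → L + 1 ≤ cs.length u → f u T = 0) →
    ∃ y, IsChain (k + 1) y ∧ ∀ u T, T ⊆ D u → 1 ≤ cs.length u → bd y u T = f u T := by
  induction L with
  | zero =>
    intro k f _ _ hv
    refine ⟨fun _ _ => 0, IsChain.zero _, fun u T hT hu => ?_⟩
    rw [hv u T hT hu]
    unfold bd
    simp
  | succ L ih =>
    intro k f hf hbd hv
    have hc := isChain_coneL (L + 1) hf
    have h1 : IsChain k (fun u T => f u T + (-1) * bd (coneL (L + 1) f) u T) :=
      hf.add (hc.bd.smul (-1))
    have h2 : ∀ u R, bd (fun u T => f u T + (-1) * bd (coneL (L + 1) f) u T) u R = 0 := by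
      intro u R
      rw [bd_add f (fun u T => (-1) * bd (coneL (L + 1) f) u T),
        bd_smul (-1) (bd (coneL (L + 1) f)), hbd, bd_bd hc.clique]
      ring
    have h3 : ∀ u T, T ⊆ D u → L + 1 ≤ cs.length u →
        f u T + (-1) * bd (coneL (L + 1) f) u T = 0 := by
      intro u T hT hu
      rw [bd_coneL (Nat.succ_pos L) hf hbd hv u T hT hu]
      ring
    obtain ⟨y, hy1, hy2⟩ := ih h1 h2 h3
    refine ⟨fun u T => y u T + coneL (L + 1) f u T, hy1.add hc, fun u T hT hu => ?_⟩
    rw [bd_add, hy2 u T hT hu]
    ring

theorem reduce' {k : ℕ} {f : W → Finset (Fin 27) → ℚ} (hf : IsChain k f)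
    (hbd : ∀ u R, bd f u R = 0) :
    ∃ y, IsChain (k + 1) y ∧ ∀ u T, T ⊆ D u → u ≠ 1 → bd y u T = f u T := by
  obtain ⟨B, hB⟩ : ∃ B, ∀ u ∈ {u : W | ∃ T, f u T ≠ 0}, cs.length u ≤ B := by
    obtain ⟨B, hB⟩ := (hf.fin.image cs.length).bddAbove
    exact ⟨B, fun u hu => hB ⟨u, hu, rfl⟩⟩
  obtain ⟨y, hy1, hy2⟩ := reduce B hf hbd (by
    intro u T _ hu
    by_contra h
    have := hB u ⟨T, h⟩
    omega)
  refine ⟨y, hy1, fun u T hT hu => hy2 u T hT ?_⟩
  rw [Nat.one_le_iff_ne_zero]
  exact fun h => hu (cs.length_eq_zero_iff.1 h)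

theorem exact_pos {k : ℕ} {f : W → Finset (Fin 27) → ℚ} (hf : IsChain (k + 1) f)
    (hbd : ∀ u R, bd f u R = 0) : ∃ y, IsChain (k + 2) y ∧ ∀ u T, bd y u T = f u T := by
  obtain ⟨y, hy1, hy2⟩ := reduce' hf hbd
  refine ⟨y, hy1, fun u T => ?_⟩
  by_cases hT : IsClique T
  · rw [← hy1.bd.top u hT, ← hf.top u hT]
    by_cases h0 : T.card = k + 1
    · apply hy2 _ _ (subset_D_top u hT)
      intro h1
      have h2 := subset_D_top u hT
      rw [h1, D_one, Finset.subset_empty] at h2
      rw [h2] at h0
      simp at h0
    · have h1 : bd y (top u T) T = 0 := by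
        by_contra h
        exact h0 (hy1.bd.card _ _ h)
      have h2 : f (top u T) T = 0 := by
        by_contra h
        exact h0 (hf.card _ _ h)
      rw [h1, h2]
  · have h1 : bd y u T = 0 := by
      by_contra h
      exact hT (hy1.bd.clique _ _ h)
    have h2 : f u T = 0 := by
      by_contra h
      exact hT (hf.clique _ _ h)
    rw [h1, h2]

end Pool.Agent.Helper63.Hyp6
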