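import Pool.Agent.Helper63.Hyp6.Act

namespace Pool.Agent.Helper63.Hyp6

def adjMask : Fin 27 → ℕ :=
  ![4192318, 6260669, 10254203, 18050807, 34266607, 67484639, 125861820, 121868154, 114071286,
    97854958, 64635870, 119795961, 111995253, 95771245, 62536797, 107944371, 91663019, 58313883,
    83473191, 49730839, 32466447, 132118529, 129992578, 125597508, 116616904, 99278288, 65387488]

def adjb (s t : Fin 27) : Bool := (adjMask s).testBit t.val

theorem adjb_iff : ∀ s t, adjb s t = true ↔ adj s t := by decide +kernel

/-- check that the labels of all nonempty cliques inside `l`, shifted by `a`, are nonzero -/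
def ckd : ℕ → List (Fin 27) → BitVec 6 → Bool
  | 0, _, _ => true
  | _ + 1, [], _ => true
  | n + 1, s :: l, a =>
    ckd n l a && ((a ^^^ lam s != 0) && ckd n (l.filter (adjb s)) (a ^^^ lam s))

/-- label of a clique -/
noncomputable def lamS (T : Finset (Fin 27)) : BitVec 6 := fX (pr T) 0

theorem lamS_insert {T : Finset (Fin 27)} {s : Fin 27} (h : IsClique (insert s T)) (hs : s ∉ T) :
    lamS (insert s T) = lam s ^^^ lamS T := by
  unfold lamS
  rw [pr_insert h hs, map_mul, Equiv.Perm.mul_apply, fX_sm, xorE_apply]

theorem lamS_empty : lamS ∅ = 0 := by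
  unfold lamS
  rw [pr_empty, map_one]
  rfl

theorem lamS_singleton (s : Fin 27) : lamS {s} = lam s := by
  unfold lamS
  rw [pr_singleton, fX_sm, xorE_apply, bx0]

theorem ckd_spec (n : ℕ) : ∀ (l : List (Fin 27)) (a : BitVec 6), l.length ≤ n →
    ckd n l a = true → ∀ T : Finset (Fin 27), IsClique T → T.Nonempty → (∀ t ∈ T, t ∈ l) →
    a ^^^ lamS T ≠ 0 := by
  induction n with
  | zero =>
    intro l a hl _ T _ hT hTl
    obtain ⟨t, ht⟩ := hT
    have := hTl t ht
    rw [List.length_eq_zero_iff.1 (Nat.le_zero.1 hl)] at this
    simp at this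
  | succ n ih =>
    intro l a hl hck T hc hT hTl
    match l, hl, hck, hTl with
    | [], _, _, hTl =>
      obtain ⟨t, ht⟩ := hT
      have := hTl t ht
      simp at this
    | s :: l, hl, hck, hTl =>
      unfold ckd at hck
      rw [Bool.and_eq_true, Bool.and_eq_true] at hck
      obtain ⟨h1, h2, h3⟩ := hck
      rw [List.length_cons] at hl
      by_cases hs : s ∈ T
      · by_cases hT' : (T.erase s).Nonempty
        · have h4 := ih (l.filter (adjb s)) (a ^^^ lam s)
            ((List.length_filter_le _ _).trans (by omega)) h3 (T.erase s)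
            (hc.mono (Finset.erase_subset _ _)) hT' (by
              intro t ht
              rw [Finset.mem_erase] at ht
              rw [List.mem_filter, adjb_iff]
              refine ⟨?_, hc s hs t ht.2 (Ne.symm ht.1)⟩
              have := hTl t ht.2
              rw [List.mem_cons] at this
              exact this.resolve_left ht.1)
          have h5 : lamS T = lam s ^^^ lamS (T.erase s) := by
            conv_lhs => rw [← Finset.insert_erase hs]
            rw [lamS_insert (by rw [Finset.insert_erase hs]; exact hc) (Finset.notMem_erase s T)]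
          rw [h5, ← BitVec.xor_assoc]
          exact h4
        · rw [Finset.not_nonempty_iff_eq_empty] at hT'
          have h5 : T = {s} := by
            rw [← Finset.insert_erase hs, hT']
            rfl
          rw [h5, lamS_singleton]
          simpa using h2
      · apply ih l a (by omega) h1 T hc hT
        intro t ht
        have := hTl t ht
        rw [List.mem_cons] at this
        exact this.resolve_left (fun h => hs (h ▸ ht))

theorem ckd_run : ckd 27 (List.finRange 27) 0 = true := by decide +kernel

theorem lamS_ne_zero {T : Finset (Fin 27)} (hT : IsClique T) (h : T.Nonempty) : lamS T ≠ 0 := by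
  have := ckd_spec 27 (List.finRange 27) 0 (by simp) ckd_run T hT h
    (fun t _ => List.mem_finRange t)
  rwa [b0x] at this

/-- number of cliques of size `k` inside `l` -/
def cnt : ℕ → List (Fin 27) → ℕ → ℕ
  | _, _, 0 => 1
  | 0, _, _ + 1 => 0
  | _ + 1, [], _ + 1 => 0
  | n + 1, s :: l, k + 1 => cnt n l (k + 1) + cnt n (l.filter (adjb s)) k

def clq (S : Finset (Fin 27)) (k : ℕ) : Finset (Finset (Fin 27)) :=
  S.powerset.filter (fun T => IsClique T ∧ T.card = k)

theorem mem_clq {S : Finset (Fin 27)} {k : ℕ} {T : Finset (Fin 27)} :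
    T ∈ clq S k ↔ T ⊆ S ∧ IsClique T ∧ T.card = k := by
  unfold clq
  rw [Finset.mem_filter, Finset.mem_powerset]

theorem clq_zero (S : Finset (Fin 27)) : (clq S 0).card = 1 := by
  have : clq S 0 = {∅} := by
    ext T
    rw [mem_clq, Finset.mem_singleton]
    constructor
    · rintro ⟨_, _, h⟩
      exact Finset.card_eq_zero.1 h
    · rintro rfl
      exact ⟨Finset.empty_subset _, isClique_empty, rfl⟩
  rw [this]
  rfl

theorem cnt_spec (n : ℕ) : ∀ (l : List (Fin 27)) (k : ℕ), l.length ≤ n → l.Nodup →
    (clq l.toFinset k).card = cnt n l k := by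
  induction n with
  | zero =>
    intro l k hl _
    match k with
    | 0 => rw [clq_zero]; rfl
    | k + 1 =>
      rw [List.length_eq_zero_iff.1 (Nat.le_zero.1 hl)]
      have : clq ([] : List (Fin 27)).toFinset (k + 1) = ∅ := by
        ext T
        rw [mem_clq]
        simp only [List.toFinset_nil, Finset.subset_empty, Finset.notMem_empty, iff_false]
        rintro ⟨rfl, _, h⟩
        simp at h
      rw [this]
      rfl
  | succ n ih =>
    intro l k hl hnd
    match l, k, hl, hnd with
    | l, 0, _, _ =>
      rw [clq_zero]
      cases l <;> rfl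
    | [], k + 1, _, _ =>
      have : clq ([] : List (Fin 27)).toFinset (k + 1) = ∅ := by
        ext T
        rw [mem_clq]
        simp only [List.toFinset_nil, Finset.subset_empty, Finset.notMem_empty, iff_false]
        rintro ⟨rfl, _, h⟩
        simp at h
      rw [this]
      rfl
    | s :: l, k + 1, hl, hnd =>
      rw [List.nodup_cons] at hnd
      rw [List.length_cons] at hl
      have h1 := ih l (k + 1) (by omega) hnd.2
      have h2 := ih (l.filter (adjb s)) k ((List.length_filter_le _ _).trans (by omega))
        (hnd.2.filter _)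
      have h3 : clq (s :: l).toFinset (k + 1) =
          clq l.toFinset (k + 1) ∪ (clq (l.filter (adjb s)).toFinset k).image (insert s) := by
        ext T
        rw [Finset.mem_union, Finset.mem_image, mem_clq, mem_clq]
        constructor
        · rintro ⟨a, b, c⟩
          by_cases hs : s ∈ T
          · right
            refine ⟨T.erase s, ?_, Finset.insert_erase hs⟩
            rw [mem_clq]
            refine ⟨?_, b.mono (Finset.erase_subset _ _), by rw [Finset.card_erase_of_mem hs]; omega⟩
            intro t ht
            rw [Finset.mem_erase] at ht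
            rw [List.mem_toFinset, List.mem_filter, adjb_iff]
            have := a ht.2
            rw [List.mem_toFinset, List.mem_cons] at this
            exact ⟨this.resolve_left ht.1, b s hs t ht.2 (Ne.symm ht.1)⟩
          · left
            refine ⟨?_, b, c⟩
            intro t ht
            have := a ht
            rw [List.mem_toFinset, List.mem_cons] at this
            rw [List.mem_toFinset]
            exact this.resolve_left (fun h => hs (h ▸ ht))
        · rintro (⟨a, b, c⟩ | ⟨U, hU, rfl⟩)
          · refine ⟨?_, b, c⟩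
            intro t ht
            have := a ht
            rw [List.mem_toFinset] at this ⊢
            exact List.mem_cons_of_mem _ this
          · rw [mem_clq] at hU
            obtain ⟨a, b, c⟩ := hU
            have hmem : ∀ t ∈ U, t ∈ l ∧ adj s t := by
              intro t ht
              have := a ht
              rw [List.mem_toFinset, List.mem_filter, adjb_iff] at this
              exact this
            refine ⟨?_, isClique_insert b (fun t ht => (hmem t ht).2), ?_⟩
            · intro t ht
              rw [Finset.mem_insert] at ht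
              rw [List.mem_toFinset, List.mem_cons]
              rcases ht with rfl | ht
              · exact Or.inl rfl
              · exact Or.inr (hmem t ht).1
            · rw [Finset.card_insert_of_notMem (fun h => hnd.1 (hmem s h).1), c]
      have hsl : ∀ T ∈ clq (l.filter (adjb s)).toFinset k, s ∉ T := by
        intro T hT hs
        rw [mem_clq] at hT
        have := hT.1 hs
        rw [List.mem_toFinset, List.mem_filter] at this
        exact hnd.1 this.1
      rw [h3, Finset.card_union_of_disjoint, Finset.card_image_of_injOn, h1, h2]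
      · rfl
      · intro T hT U hU hTU
        have h4 := hsl T hT
        have h5 := hsl U hU
        rw [← Finset.erase_insert h4, ← Finset.erase_insert h5, hTU]
      · rw [Finset.disjoint_left]
        intro T hT hT'
        rw [Finset.mem_image] at hT'
        obtain ⟨U, _, rfl⟩ := hT'
        rw [mem_clq] at hT
        have := hT.1 (Finset.mem_insert_self s U)
        rw [List.mem_toFinset] at this
        exact hnd.1 this

theorem card_clq (k : ℕ) : (clq Finset.univ k).card = cnt 27 (List.finRange 27) k := by
  rw [← cnt_spec 27 (List.finRange 27) k (by simp) (List.nodup_finRange 27)]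
  congr 2

theorem cnt_one : cnt 27 (List.finRange 27) 1 = 27 := by decide +kernel
theorem cnt_two : cnt 27 (List.finRange 27) 2 = 216 := by decide +kernel
theorem cnt_three : cnt 27 (List.finRange 27) 3 = 720 := by decide +kernel
theorem cnt_four : cnt 27 (List.finRange 27) 4 = 1080 := by decide +kernel
theorem cnt_five : cnt 27 (List.finRange 27) 5 = 648 := by decide +kernel
theorem cnt_six : cnt 27 (List.finRange 27) 6 = 72 := by decide +kernel
theorem cnt_seven : cnt 27 (List.finRange 27) 7 = 0 := by decide +kernel

/-- there is no clique of size at least seven -/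
theorem clique_card_le {T : Finset (Fin 27)} (hT : IsClique T) : T.card ≤ 6 := by
  by_contra h
  push Not at h
  obtain ⟨U, hU, hUc⟩ := Finset.exists_subset_card_eq (show 7 ≤ T.card by omega)
  have h1 : U ∈ clq Finset.univ 7 := by
    rw [mem_clq]
    exact ⟨Finset.subset_univ _, hT.mono hU, hUc⟩
  have h2 := card_clq 7
  rw [cnt_seven, Finset.card_eq_zero] at h2
  rw [h2] at h1
  simp at h1

/-! ### the key finite check -/

theorem sig4_adj : ∀ s, (sig ^ 4) s ≠ s → ¬ adj s ((sig ^ 4) s) := by decide +kernel

theorem sig4_fix : ∀ s, (sig ^ 4) s = s → s = 4 ∨ s = 18 ∨ s = 24 := by decide +kernel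

theorem pairs_not_adj : ∀ s t : Fin 27, (s = 4 ∨ s = 18 ∨ s = 24) → (t = 4 ∨ t = 18 ∨ t = 24) →
    ¬ adj s t := by decide +kernel

def itX (k : ℕ) (x : BitVec 6) : BitVec 6 := sx^[k] x

theorem check_fix : ∀ j : Fin 8, j ≠ 0 → ∀ x : BitVec 6, itX j x ≠ x ∧ lam 4 ^^^ itX j x ≠ x ∧
    lam 18 ^^^ itX j x ≠ x ∧ lam 24 ^^^ itX j x ≠ x := by decide +kernel

theorem SX_pow_apply (k : ℕ) (x : BitVec 6) : (SX ^ k) x = itX k x := by
  induction k with
  | zero => rfl
  | succ k ih =>
    rw [pow_succ', Equiv.Perm.mul_apply, ih]
    unfold itX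
    rw [Function.iterate_succ_apply']
    rfl

theorem exists_four : ∀ j : ZMod 8, j ≠ 0 → ∃ m : Fin 8, (j.val * m) % 8 = 4 := by decide +kernel

theorem fixed_sig4 {T : Finset (Fin 27)} {j : C8} (hj : j ≠ 1) (h : mp (pw sig j) T = T) :
    mp (sig ^ 4) T = T := by
  obtain ⟨m, hm⟩ := exists_four (Multiplicative.toAdd j) (fun h => hj h)
  have h1 : ∀ k : ℕ, mp ((pw sig j) ^ k) T = T := by
    intro k
    induction k with
    | zero => rw [pow_zero, mp_one]
    | succ k ih => rw [pow_succ, mp_mul, h, ih]
  have h2 := h1 m
  unfold pw at h2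
  rw [← pow_mul, pow_eq_pow_mod _ sig_pow, hm] at h2
  exact h2

theorem clique_sig4 {T : Finset (Fin 27)} (hT : IsClique T) (h : mp (sig ^ 4) T = T) :
    T = ∅ ∨ T = {4} ∨ T = {18} ∨ T = {24} := by
  have h1 : ∀ s ∈ T, s = 4 ∨ s = 18 ∨ s = 24 := by
    intro s hs
    apply sig4_fix
    by_contra hne
    have h2 : (sig ^ 4) s ∈ T := by
      rw [← h, apply_mem_mp]
      exact hs
    exact sig4_adj s hne (hT s hs _ h2 (Ne.symm hne))
  have h2 : ∀ s ∈ T, ∀ t ∈ T, s = t := by
    intro s hs t ht
    by_contra hne
    exact pairs_not_adj s t (h1 s hs) (h1 t ht) (hT s hs t ht hne)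
  rcases Finset.eq_empty_or_nonempty T with h3 | ⟨s, hs⟩
  · exact Or.inl h3
  · right
    have h4 : T = {s} := by
      ext t
      rw [Finset.mem_singleton]
      exact ⟨fun ht => h2 t ht s hs, fun ht => ht ▸ hs⟩
    rcases h1 s hs with rfl | rfl | rfl
    · exact Or.inl h4
    · exact Or.inr (Or.inl h4)
    · exact Or.inr (Or.inr h4)

theorem key_check {T : Finset (Fin 27)} (hT : IsClique T) {g : GG} (hg : mp (sg g) T = T)
    {F : Finset (Fin 27)} (hF : F ⊆ T) (hgF : g.left = pr F) {x : BitVec 6}
    (hx : actX g x = x) : g = 1 := by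
  rw [actX_apply, hgF, fX_apply] at hx
  change lamS F ^^^ _ = x at hx
  by_cases hj : g.right = 1
  · rw [hj, pw_one, Equiv.Perm.one_apply] at hx
    have h1 : F = ∅ := by
      by_contra hne
      apply lamS_ne_zero (hT.mono hF) (Finset.nonempty_iff_ne_empty.2 hne)
      calc lamS F = lamS F ^^^ (x ^^^ x) := by rw [BitVec.xor_self]; exact (bx0 _).symm
        _ = (lamS F ^^^ x) ^^^ x := (BitVec.xor_assoc _ _ _).symm
        _ = 0 := by rw [hx, BitVec.xor_self]; rfl
    apply SemidirectProduct.ext
    · rw [hgF, h1, pr_empty]; rfl
    · exact hj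
  · exfalso
    rw [sg_apply] at hg
    have h1 := clique_sig4 hT (fixed_sig4 hj hg)
    have h2 : F = ∅ ∨ F = {4} ∨ F = {18} ∨ F = {24} := by
      rcases h1 with h | h | h | h <;> rw [h] at hF
      · exact Or.inl (Finset.subset_empty.1 hF)
      · rcases Finset.subset_singleton_iff.1 hF with h' | h' <;> tauto
      · rcases Finset.subset_singleton_iff.1 hF with h' | h' <;> tauto
      · rcases Finset.subset_singleton_iff.1 hF with h' | h' <;> tauto
    unfold pw at hx
    rw [SX_pow_apply] at hx
    obtain ⟨c1, c2, c3, c4⟩ := check_fix (Multiplicative.toAdd g.right) (fun h => hj h) x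
    rcases h2 with h | h | h | h <;> rw [h] at hx
    · rw [lamS_empty, b0x] at hx
      exact c1 hx
    · rw [lamS_singleton] at hx
      exact c2 hx
    · rw [lamS_singleton] at hx
      exact c3 hx
    · rw [lamS_singleton] at hx
      exact c4 hx

end Pool.Agent.Helper63.Hyp6
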