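import Pool.Agent.Helper63.Hyp6.Tors

namespace Pool.Agent.Helper63.Hyp6

/-- orbits of a free action and of a space fibred over it -/
theorem card_orbits_fiber {Γ A B : Type} [Group Γ] [MulAction Γ A] [MulAction Γ B] (p : A → B)
    (hp : ∀ (g : Γ) a, p (g • a) = g • p a) (hfree : ∀ (g : Γ) (b : B), g • b = b → g = 1)
    (m : ℕ) (hfib : ∀ b, Nonempty ({a // p a = b} ≃ Fin m)) :
    Nat.card (MulAction.orbitRel.Quotient Γ A) =
      m * Nat.card (MulAction.orbitRel.Quotient Γ B) := by
  classical
  set f : MulAction.orbitRel.Quotient Γ B × Fin m → MulAction.orbitRel.Quotient Γ A :=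
    fun q => Quotient.mk _ ((hfib (Quotient.out q.1)).some.symm q.2).1 with hf
  have hbij : Function.Bijective f := by
    constructor
    · rintro ⟨q, i⟩ ⟨q', i'⟩ h
      rw [hf] at h
      simp only at h
      set a := (hfib (Quotient.out q)).some.symm i with ha
      set a' := (hfib (Quotient.out q')).some.symm i' with ha'
      have h1 : (MulAction.orbitRel Γ A).r a.1 a'.1 := Quotient.exact h
      obtain ⟨g, hg⟩ := MulAction.orbitRel_apply.1 h1
      simp only at hg
      have h2 : g • Quotient.out q' = Quotient.out q := by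
        rw [← a.2, ← a'.2, ← hp, hg]
      have h3 : q = q' := by
        rw [← Quotient.out_eq q, ← Quotient.out_eq q']
        apply Quotient.sound
        exact MulAction.orbitRel_apply.2 ⟨g, h2⟩
      subst h3
      have h4 : g = 1 := hfree g _ h2
      rw [h4, one_smul] at hg
      have h5 : a' = a := Subtype.ext hg
      have h6 : i' = i := (hfib (Quotient.out q)).some.symm.injective h5
      rw [h6]
    · intro x
      obtain ⟨a, rfl⟩ := Quotient.exists_rep x
      have h1 : (MulAction.orbitRel Γ B).r (Quotient.out (Quotient.mk (MulAction.orbitRel Γ B)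
        (p a))) (p a) := Quotient.mk_out (p a)
      obtain ⟨g, hg⟩ := MulAction.orbitRel_apply.1 h1
      simp only at hg
      set q : MulAction.orbitRel.Quotient Γ B := Quotient.mk (MulAction.orbitRel Γ B) (p a) with hq
      refine ⟨(q, (hfib (Quotient.out q)).some ⟨g • a, by rw [hp, hg]⟩), ?_⟩
      rw [hf]
      simp only [Equiv.symm_apply_apply]
      apply Quotient.sound
      exact MulAction.orbitRel_apply.2 ⟨g, rfl⟩
  rw [← Nat.card_congr (Equiv.ofBijective f hbij), Nat.card_prod, Nat.card_fin, mul_comm]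

/-- pairs (vertex, set of directions) -/
def AA (k : ℕ) : Type := {c : W × Finset (Fin 27) // IsClique c.2 ∧ c.2.card = k}

noncomputable instance (k : ℕ) : MulAction GG (AA k) where
  smul g c := ⟨(act g c.1.1, mp (sg g) c.1.2), isClique_mp g c.2.1, by
    rw [card_mp]; exact c.2.2⟩
  one_smul c := by
    apply Subtype.ext
    change (act 1 c.1.1, mp (sg 1) c.1.2) = c.1
    rw [act_one, map_one, mp_one]
  mul_smul g h c := by
    apply Subtype.ext
    change (act (g * h) c.1.1, mp (sg (g * h)) c.1.2) =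
      (act g (act h c.1.1), mp (sg g) (mp (sg h) c.1.2))
    rw [act_mul, map_mul, mp_mul]

theorem AA_smul_val {k : ℕ} (g : GG) (c : AA k) :
    (g • c).1 = (act g c.1.1, mp (sg g) c.1.2) := rfl

noncomputable def pK {k : ℕ} (c : AA k) : K k := cl c.1.1 c.1.2 c.2.1 c.2.2

noncomputable def p0K {k : ℕ} (c : AA k) : K 0 := cl c.1.1 ∅ isClique_empty rfl

theorem pK_smul {k : ℕ} (g : GG) (c : AA k) : pK (g • c) = g • pK c := by
  unfold pK
  rw [smul_cl]
  rfl

theorem p0K_smul {k : ℕ} (g : GG) (c : AA k) : p0K (g • c) = g • p0K c := by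
  unfold p0K
  rw [smul_cl]
  rfl

theorem top_empty (u : W) : top u ∅ = u := top_eq_self (Finset.empty_subset _)

theorem K0_ext {c c' : K 0} (h : c.1.1 = c'.1.1) : c = c' := by
  apply Subtype.ext
  apply Prod.ext h
  rw [Finset.card_eq_zero.1 c.2.2, Finset.card_eq_zero.1 c'.2.2]

theorem fib_pK {k : ℕ} (c : K k) : Nonempty ({a : AA k // pK a = c} ≃ Fin (2 ^ k)) := by
  have e1 : {a : AA k // pK a = c} ≃ {F // F ∈ c.1.2.powerset} :=
    { toFun := fun a => ⟨c.1.2 \ D a.1.1.1, by
        rw [Finset.mem_powerset]; exact Finset.sdiff_subset⟩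
      invFun := fun F => ⟨⟨(c.1.1 * pr F.1, c.1.2), c.clique, c.2.2⟩, by
        apply Subtype.ext
        change (top (c.1.1 * pr F.1) c.1.2, c.1.2) = c.1
        rw [top_mul_pr _ c.clique (Finset.mem_powerset.1 F.2), top_eq_self c.2.1]⟩
      left_inv := by
        rintro ⟨a, ha⟩
        apply Subtype.ext
        apply Subtype.ext
        have h1 : (top a.1.1 a.1.2, a.1.2) = c.1 := congrArg Subtype.val ha
        change (c.1.1 * pr (c.1.2 \ D a.1.1), c.1.2) = a.1
        rw [← h1]
        change (top a.1.1 a.1.2 * pr (a.1.2 \ D a.1.1), a.1.2) = a.1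
        apply Prod.ext
        · change top a.1.1 a.1.2 * pr (a.1.2 \ D a.1.1) = a.1.1
          unfold top
          rw [mul_assoc, pr_mul_self (a.2.1.mono Finset.sdiff_subset), mul_one]
        · rfl
      right_inv := by
        rintro ⟨F, hF⟩
        rw [Finset.mem_powerset] at hF
        apply Subtype.ext
        change c.1.2 \ D (c.1.1 * pr F) = F
        ext s
        rw [Finset.mem_sdiff]
        constructor
        · rintro ⟨h1, h2⟩
          rw [mem_D_mul_pr _ (c.clique.mono (Finset.insert_subset h1 hF))] at h2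
          have := c.2.1 h1
          tauto
        · intro h1
          have h3 := hF h1
          refine ⟨h3, ?_⟩
          rw [mem_D_mul_pr _ (c.clique.mono (Finset.insert_subset h3 hF))]
          have := c.2.1 h3
          tauto }
  exact ⟨e1.trans (Finset.equivFinOfCardEq (by rw [Finset.card_powerset, c.2.2]))⟩

theorem fib_p0K {k : ℕ} (c : K 0) :
    Nonempty ({a : AA k // p0K a = c} ≃ Fin (cnt 27 (List.finRange 27) k)) := by
  have e1 : {a : AA k // p0K a = c} ≃ {T // T ∈ clq Finset.univ k} :=
    { toFun := fun a => ⟨a.1.1.2, by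
        rw [mem_clq]
        exact ⟨Finset.subset_univ _, a.1.2⟩⟩
      invFun := fun T => ⟨⟨(c.1.1, T.1), (mem_clq.1 T.2).2⟩, by
        apply K0_ext
        exact top_empty _⟩
      left_inv := by
        rintro ⟨a, ha⟩
        apply Subtype.ext
        apply Subtype.ext
        change (c.1.1, a.1.2) = a.1
        rw [← ha]
        change (top a.1.1 ∅, a.1.2) = a.1
        rw [top_empty]
      right_inv := by
        rintro ⟨T, hT⟩
        rfl }
  exact ⟨e1.trans (Finset.equivFinOfCardEq (card_clq k))⟩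

noncomputable def gK (g : GG) : K 0 := g • (cl 1 ∅ isClique_empty rfl : K 0)

theorem gK_val (g : GG) : (gK g).1.1 = g.left := by
  unfold gK
  rw [smul_cl]
  change top (act g 1) (mp (sg g) ∅) = _
  rw [mp_empty, top_empty]
  unfold act
  rw [map_one, mul_one]

theorem fib_gK (c : K 0) : Nonempty ({g : GG // gK g = c} ≃ Fin 8) := by
  have e1 : {g : GG // gK g = c} ≃ C8 :=
    { toFun := fun g => g.1.right
      invFun := fun j => ⟨⟨c.1.1, j⟩, K0_ext (gK_val _)⟩
      left_inv := by
        rintro ⟨g, rfl⟩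
        apply Subtype.ext
        apply SemidirectProduct.ext
        · exact gK_val g
        · rfl
      right_inv := fun j => rfl }
  exact ⟨e1.trans (Multiplicative.toAdd.trans (Equiv.refl (Fin 8)))⟩

section
variable (n : ℕ)

theorem Gam_free' (k : ℕ) (g : Gam n) (c : K k) (h : g • c = c) : g = 1 :=
  Subtype.ext (Gam_free n k g.1 g.2 c h)

theorem card_GG [NeZero n] : Nat.card (MulAction.orbitRel.Quotient (Gam n) GG) = 64 * n := by
  classical
  have hmk : ∀ g h : GG, (MulAction.orbitRel (Gam n) GG).r g h ↔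
      (actX g⁻¹ 0, actY n g⁻¹ 0) = (actX h⁻¹ 0, actY n h⁻¹ 0) := by
    intro g h
    rw [show (MulAction.orbitRel (Gam n) GG).r g h ↔ ∃ γ : Gam n, γ • h = g from
      MulAction.orbitRel_apply]
    constructor
    · rintro ⟨γ, rfl⟩
      have h1 : ((γ • h : GG))⁻¹ = h⁻¹ * (γ : GG)⁻¹ := by
        rw [Subgroup.smul_def, smul_eq_mul, mul_inv_rev]
      obtain ⟨h2, h3⟩ := (Gam n).inv_mem γ.2
      rw [h1, map_mul, map_mul, Equiv.Perm.mul_apply, Equiv.Perm.mul_apply, h2, h3]
    · intro he
      obtain ⟨e1, e2⟩ := Prod.mk.inj he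
      refine ⟨⟨g * h⁻¹, ?_, ?_⟩, ?_⟩
      · rw [map_mul, Equiv.Perm.mul_apply, ← e1, map_inv, ← Equiv.Perm.mul_apply,
          mul_inv_cancel, Equiv.Perm.one_apply]
      · rw [map_mul, Equiv.Perm.mul_apply, ← e2, map_inv, ← Equiv.Perm.mul_apply,
          mul_inv_cancel, Equiv.Perm.one_apply]
      · rw [Subgroup.smul_def, smul_eq_mul, inv_mul_cancel_right]
  set f : MulAction.orbitRel.Quotient (Gam n) GG → BitVec 6 × ZMod n :=
    Quotient.lift (fun g : GG => (actX g⁻¹ 0, actY n g⁻¹ 0)) (fun g h hgh => (hmk g h).1 hgh)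
    with hf
  have hbij : Function.Bijective f := by
    constructor
    · intro a b
      obtain ⟨g, rfl⟩ := Quotient.exists_rep a
      obtain ⟨h, rfl⟩ := Quotient.exists_rep b
      intro he
      exact Quotient.sound ((hmk g h).2 he)
    · rintro ⟨x, y⟩
      obtain ⟨g, h1, h2⟩ := exists_GG n x y
      refine ⟨Quotient.mk _ g⁻¹, ?_⟩
      change (actX g⁻¹⁻¹ 0, actY n g⁻¹⁻¹ 0) = (x, y)
      rw [inv_inv, h1, h2]
  rw [Nat.card_congr (Equiv.ofBijective f hbij), Nat.card_prod, Nat.card_zmod]
  congr 1
  rw [Nat.card_eq_fintype_card]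
  decide +kernel

theorem card_K0 [NeZero n] : Nat.card (MulAction.orbitRel.Quotient (Gam n) (K 0)) = 8 * n := by
  have h1 := card_orbits_fiber (Γ := Gam n) (A := GG) (B := K 0) gK
    (fun g a => by
      unfold gK
      rw [Subgroup.smul_def, Subgroup.smul_def, smul_eq_mul, mul_smul])
    (Gam_free' n 0) 8 fib_gK
  rw [card_GG n] at h1
  omega

theorem card_K (k : ℕ) [NeZero n] :
    2 ^ k * Nat.card (MulAction.orbitRel.Quotient (Gam n) (K k)) =
      cnt 27 (List.finRange 27) k * (8 * n) := by
  have h1 := card_orbits_fiber (Γ := Gam n) (A := AA k) (B := K k) pK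
    (fun g a => pK_smul g.1 a) (Gam_free' n k) (2 ^ k) fib_pK
  have h2 := card_orbits_fiber (Γ := Gam n) (A := AA k) (B := K 0) p0K
    (fun g a => p0K_smul g.1 a) (Gam_free' n 0) _ fib_p0K
  rw [← h1, h2, card_K0 n]

theorem K_empty {k : ℕ} (h : 6 < k) : IsEmpty (K k) :=
  ⟨fun c => by
    have h1 := clique_card_le c.clique
    rw [c.2.2] at h1
    omega⟩

theorem finite_K (k : ℕ) [NeZero n] : Finite (MulAction.orbitRel.Quotient (Gam n) (K k)) := by
  rcases Nat.lt_or_ge 6 k with h | h
  · have := K_empty h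
    have : IsEmpty (MulAction.orbitRel.Quotient (Gam n) (K k)) := by
      constructor
      intro q
      obtain ⟨c, _⟩ := Quotient.exists_rep q
      exact this.false c
    infer_instance
  · apply Nat.finite_of_card_ne_zero
    intro h0
    have h1 := card_K n k
    rw [h0, mul_zero] at h1
    have h2 : cnt 27 (List.finRange 27) k ≠ 0 := by
      interval_cases k
      · decide
      · rw [cnt_one]; decide
      · rw [cnt_two]; decide
      · rw [cnt_three]; decide
      · rw [cnt_four]; decide
      · rw [cnt_five]; decide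
      · rw [cnt_six]; decide
    have h3 : n ≠ 0 := NeZero.ne n
    have h4 : cnt 27 (List.finRange 27) k * (8 * n) ≠ 0 :=
      Nat.mul_ne_zero h2 (Nat.mul_ne_zero (by norm_num) h3)
    exact h4 h1.symm

theorem euler_sum [NeZero n] : ∑ k ∈ Finset.range (6 + 1),
    (-1 : ℤ) ^ k * Nat.card (MulAction.orbitRel.Quotient (Gam n) (K k)) = -(n : ℤ) := by
  have h0 := card_K0 n
  have h1 := card_K n 1
  have h2 := card_K n 2
  have h3 := card_K n 3
  have h4 := card_K n 4
  have h5 := card_K n 5
  have h6 := card_K n 6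
  rw [cnt_one] at h1
  rw [cnt_two] at h2
  rw [cnt_three] at h3
  rw [cnt_four] at h4
  rw [cnt_five] at h5
  rw [cnt_six] at h6
  simp only [Finset.sum_range_succ, Finset.sum_range_zero]
  generalize Nat.card (MulAction.orbitRel.Quotient (Gam n) (K 0)) = c0 at *
  generalize Nat.card (MulAction.orbitRel.Quotient (Gam n) (K 1)) = c1 at *
  generalize Nat.card (MulAction.orbitRel.Quotient (Gam n) (K 2)) = c2 at *
  generalize Nat.card (MulAction.orbitRel.Quotient (Gam n) (K 3)) = c3 at *
  generalize Nat.card (MulAction.orbitRel.Quotient (Gam n) (K 4)) = c4 at *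
  generalize Nat.card (MulAction.orbitRel.Quotient (Gam n) (K 5)) = c5 at *
  generalize Nat.card (MulAction.orbitRel.Quotient (Gam n) (K 6)) = c6 at *
  norm_num
  omega

end

end Pool.Agent.Helper63.Hyp6
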