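import Pool.Agent.Helper63.Hyp6.Data

namespace Pool.Agent.Helper63.Hyp6

/-- Coxeter matrix of the right-angled reflection group -/
def cox : CoxeterMatrix (Fin 27) where
  M := fun s t => if s = t then 1 else if bil (V s) (V t) = 0 then 2 else 0
  isSymm := by
    ext s t
    simp only [Matrix.transpose_apply]
    by_cases h : s = t
    · subst h; rfl
    · rw [if_neg h, if_neg (Ne.symm h), bil_comm (V t)]
  diagonal := by
    intro s
    simp
  off_diagonal := by
    intro s t h
    rw [if_neg h]
    split_ifs <;> decide

abbrev W : Type := cox.Group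

abbrev cs : CoxeterSystem cox W := cox.toCoxeterSystem

abbrev sm (s : Fin 27) : W := cs.simple s

theorem cox_adj {s t : Fin 27} (h : adj s t) : cox s t = 2 := by
  show (if s = t then 1 else if bil (V s) (V t) = 0 then 2 else 0) = 2
  rw [if_neg h.1, if_pos h.2]

theorem cox_self (s : Fin 27) : cox s s = 1 := cox.diagonal s

theorem cox_other {s t : Fin 27} (h : s ≠ t) (h' : ¬ adj s t) : cox s t = 0 := by
  show (if s = t then 1 else if bil (V s) (V t) = 0 then 2 else 0) = 0
  rw [if_neg h, if_neg (fun hh => h' ⟨h, hh⟩)]

theorem adj_symm {s t : Fin 27} (h : adj s t) : adj t s := ⟨h.1.symm, by rw [bil_comm]; exact h.2⟩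

/-- a family of commuting-when-adjacent involutions extends to the Coxeter group -/
theorem liftable_of {G : Type*} [Monoid G] (f : Fin 27 → G) (h1 : ∀ s, f s * f s = 1)
    (h2 : ∀ s t, adj s t → f s * f t = f t * f s) : cox.IsLiftable f := by
  intro s t
  by_cases h : s = t
  · subst h
    rw [cox_self, pow_one, h1]
  · by_cases h' : adj s t
    · rw [cox_adj h', pow_two, mul_assoc, ← mul_assoc (f t), ← h2 s t h', mul_assoc (f s),
        h1, mul_one, h1]
    · rw [cox_other h h', pow_zero]

theorem sm_sq (s : Fin 27) : sm s * sm s = 1 := cs.simple_mul_simple_self s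

theorem sm_comm {s t : Fin 27} (h : adj s t) : sm s * sm t = sm t * sm s := by
  have h1 := cs.simple_mul_simple_pow s t
  rw [cox_adj h, pow_two] at h1
  have h2 : sm s * sm t = (sm s * sm t)⁻¹ := eq_inv_of_mul_eq_one_left h1
  rw [mul_inv_rev, cs.inv_simple, cs.inv_simple] at h2
  exact h2

/-- the linear representation -/
noncomputable def rho : W →* Module.End ℤ (Fin 7 → ℤ) :=
  cs.lift ⟨fun s => rfl1 (V s), by
    apply liftable_of
    · intro s
      apply LinearMap.ext
      intro x
      exact rfl1_rfl1 (V_norm s) x
    · intro s t h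
      apply LinearMap.ext
      intro x
      exact rfl1_comm h.2 x⟩

theorem rho_sm (s : Fin 27) : rho (sm s) = rfl1 (V s) := cs.lift_apply_simple _ s

theorem rho_mul_sm (w : W) (s : Fin 27) (x : Fin 7 → ℤ) :
    rho (w * sm s) x = rho w (rfl1 (V s) x) := by
  rw [map_mul, rho_sm]
  rfl

theorem rho_mul (w w' : W) (x : Fin 7 → ℤ) : rho (w * w') x = rho w (rho w' x) := by
  rw [map_mul]
  rfl

theorem bil_rho (w : W) (x y : Fin 7 → ℤ) : bil (rho w x) (rho w y) = bil x y := by
  induction w using cs.simple_induction generalizing x y with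
  | simple s => rw [rho_sm]; exact bil_rfl1 (V_norm s) x y
  | one => simp
  | mul w w' h h' => rw [rho_mul, rho_mul, h, h']

theorem causal_rho (w : W) {x : Fin 7 → ℤ} (hx : Causal x) : Causal (rho w x) := by
  induction w using cs.simple_induction generalizing x with
  | simple s => rw [rho_sm]; exact causal_rfl1 (V_norm s) hx
  | one => simpa using hx
  | mul w w' h h' => rw [rho_mul]; exact h (h' hx)

theorem rho_inv_rho (w : W) (x : Fin 7 → ℤ) : rho w⁻¹ (rho w x) = x := by
  rw [← rho_mul, inv_mul_cancel, map_one]
  rfl

theorem rho_rho_inv (w : W) (x : Fin 7 → ℤ) : rho w (rho w⁻¹ x) = x := by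
  rw [← rho_mul, mul_inv_cancel, map_one]
  rfl

theorem bil_rho_left (w : W) (x y : Fin 7 → ℤ) : bil x (rho w y) = bil (rho w⁻¹ x) y := by
  rw [← bil_rho w (rho w⁻¹ x) y, rho_rho_inv]

/-- a causal vector is beyond at most a clique of walls -/
theorem clique_of_pos {q : Fin 7 → ℤ} (hq : Causal q) {s t : Fin 27} (hst : s ≠ t)
    (hs : 0 < bil q (V s)) (ht : 0 < bil q (V t)) : adj s t := by
  refine ⟨hst, ?_⟩
  rcases V_pair s t hst with h | h
  · exact h
  · exfalso
    have hc : Causal (V s + V t) := by
      refine ⟨?_, V_time s t hst h⟩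
      rw [bil_add_left, bil_add_right, bil_add_right, V_norm, V_norm, bil_comm (V t), h]
      norm_num
    have := causal_bil_nonpos hq hc
    rw [bil_add_right] at this
    linarith

/-- a timelike causal vector in the closed chamber is only on a clique of walls -/
theorem clique_of_zero {q : Fin 7 → ℤ} (hq : Causal q) (hqq : bil q q < 0) {s t : Fin 27}
    (hst : s ≠ t) (hs : bil q (V s) = 0) (ht : bil q (V t) = 0) : adj s t := by
  refine ⟨hst, ?_⟩
  rcases V_pair s t hst with h | h
  · exact h
  · exfalso
    have hc : Causal (V s + V t) := by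
      refine ⟨?_, V_time s t hst h⟩
      rw [bil_add_left, bil_add_right, bil_add_right, V_norm, V_norm, bil_comm (V t), h]
      norm_num
    have := timelike_bil_neg hq hqq hc
    rw [bil_add_right] at this
    linarith

theorem rho_V_self (w : W) (s : Fin 27) : rho (w * sm s) (V s) = - rho w (V s) := by
  rw [rho_mul_sm, rfl1_self (V_norm s), map_neg]

theorem rho_V_adj (w : W) {s t : Fin 27} (h : adj s t) :
    rho (w * sm t) (V s) = rho w (V s) := by
  rw [rho_mul_sm, rfl1_orth h.2]

/-- descents are detected by any odd causal vector in the interior of the chamber -/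
theorem descent_iff {q : Fin 7 → ℤ} (hq : Causal q) (hodd : AllOdd q)
    (hneg : ∀ s, bil q (V s) < 0) (w : W) (s : Fin 27) :
    cs.IsRightDescent w s ↔ 0 < bil q (rho w (V s)) := by
  have hne : ∀ w s, bil q (rho w (V s)) ≠ 0 := by
    intro w s h0
    have h1 := odd_bil hodd (u := rho w (V s)) (by rw [bil_rho]; exact V_norm s)
    rw [h0] at h1
    exact absurd h1 (by decide)
  have hflip : ∀ w s, (0 < bil q (rho (w * sm s) (V s)) ↔ ¬ 0 < bil q (rho w (V s))) := by
    intro w s
    rw [rho_V_self, bil_neg_right]
    have := hne w s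
    constructor
    · intro h; linarith
    · intro h
      rcases lt_trichotomy (bil q (rho w (V s))) 0 with h' | h' | h'
      · linarith
      · exact absurd h' this
      · exact absurd h' h
  have key : ∀ n, ∀ w : W, cs.length w = n → ∀ s, cs.IsRightDescent w s →
      0 < bil q (rho w (V s)) := by
    intro n
    induction n using Nat.strong_induction_on with
    | _ n ih =>
      intro w hw s hs
      by_contra hcon
      -- v = w s
      set v : W := w * sm s with hv
      have hvs : v * sm s = w := by rw [hv, mul_assoc, sm_sq, mul_one]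
      have hlv : cs.length v + 1 = cs.length w := cs.isRightDescent_iff.1 hs
      have hPv : 0 < bil q (rho v (V s)) := by
        rw [hv, hflip]; exact hcon
      have hv1 : v ≠ 1 := by
        intro h1
        rw [h1, map_one] at hPv
        have := hneg s
        simp only [Module.End.one_apply] at hPv
        linarith
      obtain ⟨t, ht⟩ := cs.exists_rightDescent_of_ne_one hv1
      have hts : s ≠ t := by
        intro hst
        subst hst
        have h2 := cs.isRightDescent_iff.1 ht
        change cs.length (v * sm s) + 1 = _ at h2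
        rw [hvs] at h2
        omega
      have hPt : 0 < bil q (rho v (V t)) := ih (cs.length v) (by omega) v rfl t ht
      have hadj : adj s t := by
        apply clique_of_pos (q := rho v⁻¹ q) (causal_rho _ hq) hts
        · rw [← bil_rho_left]; exact hPv
        · rw [← bil_rho_left]; exact hPt
      have hlt : cs.length (v * sm t) + 1 = cs.length v := cs.isRightDescent_iff.1 ht
      have hP' : 0 < bil q (rho (v * sm t) (V s)) := by rw [rho_V_adj v hadj]; exact hPv
      have hw' : w = v * sm t * sm s * sm t := by
        rw [mul_assoc v, ← sm_comm hadj, ← mul_assoc, hvs, mul_assoc, sm_sq, mul_one]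
      have hl1 : cs.length w ≤ cs.length (v * sm t * sm s) + 1 := by
        conv_lhs => rw [hw']
        refine le_trans (cs.length_mul_le _ _) ?_
        have h5 : cs.length (sm t) = 1 := cs.length_simple t
        omega
      have hl2 : cs.length (v * sm t * sm s) = cs.length (v * sm t) + 1 := by
        rcases cs.length_mul_simple (v * sm t) s with h | h
        · exact h
        · change cs.length (v * sm t * sm s) + 1 = _ at h
          omega
      have hD : cs.IsRightDescent (v * sm t * sm s) s := by
        rw [cs.isRightDescent_iff]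
        change cs.length (v * sm t * sm s * sm s) + 1 = _
        rw [mul_assoc (v * sm t), sm_sq, mul_one, hl2]
      have hP2 := ih (cs.length (v * sm t * sm s)) (by omega) _ rfl s hD
      rw [hflip] at hP2
      exact hP2 hP'
  refine ⟨key _ w rfl s, fun h => ?_⟩
  by_contra hcon
  have h1 : cs.IsRightDescent (w * sm s) s := by
    rw [cs.isRightDescent_iff_not_isRightDescent_mul]
    change ¬ cs.IsRightDescent (w * sm s * sm s) s
    rw [mul_assoc, sm_sq, mul_one]
    exact hcon
  have h2 := key _ _ rfl s h1
  rw [hflip] at h2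
  exact h2 h

theorem p0_odd : AllOdd p0 := by
  intro i
  fin_cases i <;> decide

theorem p0_causal : Causal p0 := by
  refine ⟨by rw [p0_norm]; norm_num, by decide⟩

/-- the set of right descents -/
noncomputable def D (w : W) : Finset (Fin 27) := by
  classical exact Finset.univ.filter (fun s => 0 < bil p0 (rho w (V s)))

theorem mem_D {w : W} {s : Fin 27} : s ∈ D w ↔ 0 < bil p0 (rho w (V s)) := by
  unfold D
  simp

theorem mem_D_iff {w : W} {s : Fin 27} : s ∈ D w ↔ cs.IsRightDescent w s := by
  rw [mem_D, descent_iff p0_causal p0_odd (fun s => by rw [V_p0]; norm_num)]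

theorem D_adj {w : W} {s t : Fin 27} (hs : s ∈ D w) (ht : t ∈ D w) (h : s ≠ t) : adj s t := by
  rw [mem_D] at hs ht
  apply clique_of_pos (q := rho w⁻¹ p0) (causal_rho _ p0_causal) h
  · rw [← bil_rho_left]; exact hs
  · rw [← bil_rho_left]; exact ht

theorem D_mul_adj (w : W) {s t : Fin 27} (h : adj s t) : s ∈ D (w * sm t) ↔ s ∈ D w := by
  rw [mem_D, mem_D, rho_V_adj w h]

theorem D_mul_self (w : W) (s : Fin 27) : s ∈ D (w * sm s) ↔ s ∉ D w := by
  rw [mem_D_iff, mem_D_iff, cs.isRightDescent_iff_not_isRightDescent_mul]
  change ¬ cs.IsRightDescent (w * sm s * sm s) s ↔ _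
  rw [mul_assoc, sm_sq, mul_one]

theorem length_of_mem_D {w : W} {s : Fin 27} (h : s ∈ D w) :
    cs.length (w * sm s) + 1 = cs.length w := cs.isRightDescent_iff.1 (mem_D_iff.1 h)

theorem length_of_notMem_D {w : W} {s : Fin 27} (h : s ∉ D w) :
    cs.length (w * sm s) = cs.length w + 1 := by
  rw [← D_mul_self] at h
  have := length_of_mem_D h
  rw [mul_assoc, sm_sq, mul_one] at this
  omega

theorem eq_one_of_D {w : W} (h : D w = ∅) : w = 1 := by
  by_contra hw
  obtain ⟨s, hs⟩ := cs.exists_rightDescent_of_ne_one hw
  rw [← mem_D_iff, h] at hs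
  simp at hs

theorem D_one : D (1 : W) = ∅ := by
  ext s
  rw [mem_D, map_one, Module.End.one_apply, V_p0]
  simp

theorem eq_one_of_rho_p0 {w : W} (h : rho w p0 = p0) : w = 1 := by
  apply eq_one_of_D
  ext s
  have h' : rho w⁻¹ p0 = p0 := by
    conv_lhs => rw [← h]
    rw [rho_inv_rho]
  rw [mem_D, bil_rho_left, h', V_p0]
  simp

end Pool.Agent.Helper63.Hyp6
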