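import Pool.Agent.Helper63.Hyp6.Lattice

namespace Pool.Agent.Helper63.Hyp6

/-- outer normal vectors of the 27 facets -/
def V : Fin 27 → Fin 7 → ℤ :=
  ![![0, -1, 0, 0, 0, 0, 0],
    ![0, 0, -1, 0, 0, 0, 0],
    ![0, 0, 0, -1, 0, 0, 0],
    ![0, 0, 0, 0, -1, 0, 0],
    ![0, 0, 0, 0, 0, -1, 0],
    ![0, 0, 0, 0, 0, 0, -1],
    ![1, 1, 1, 0, 0, 0, 0],
    ![1, 1, 0, 1, 0, 0, 0],
    ![1, 1, 0, 0, 1, 0, 0],
    ![1, 1, 0, 0, 0, 1, 0],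
    ![1, 1, 0, 0, 0, 0, 1],
    ![1, 0, 1, 1, 0, 0, 0],
    ![1, 0, 1, 0, 1, 0, 0],
    ![1, 0, 1, 0, 0, 1, 0],
    ![1, 0, 1, 0, 0, 0, 1],
    ![1, 0, 0, 1, 1, 0, 0],
    ![1, 0, 0, 1, 0, 1, 0],
    ![1, 0, 0, 1, 0, 0, 1],
    ![1, 0, 0, 0, 1, 1, 0],
    ![1, 0, 0, 0, 1, 0, 1],
    ![1, 0, 0, 0, 0, 1, 1],
    ![2, 0, 1, 1, 1, 1, 1],
    ![2, 1, 0, 1, 1, 1, 1],
    ![2, 1, 1, 0, 1, 1, 1],
    ![2, 1, 1, 1, 0, 1, 1],
    ![2, 1, 1, 1, 1, 0, 1],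
    ![2, 1, 1, 1, 1, 1, 0]]

/-- the centre of the fundamental chamber -/
def p0 : Fin 7 → ℤ := ![3, 1, 1, 1, 1, 1, 1]

/-- orthogonality of facets -/
def adj (s t : Fin 27) : Prop := s ≠ t ∧ bil (V s) (V t) = 0

instance : DecidableRel adj := fun s t => inferInstanceAs (Decidable (s ≠ t ∧ bil (V s) (V t) = 0))

theorem V_norm : ∀ s, bil (V s) (V s) = 1 := by decide +kernel

theorem V_pair : ∀ s t, s ≠ t → bil (V s) (V t) = 0 ∨ bil (V s) (V t) = -1 := by decide +kernel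

theorem V_p0 : ∀ s, bil p0 (V s) = -1 := by decide +kernel

theorem p0_norm : bil p0 p0 = -3 := by decide +kernel

theorem V_time : ∀ s t, s ≠ t → bil (V s) (V t) = -1 → 0 < V s 0 + V t 0 := by decide +kernel

/-- the permutation of order 8 -/
def sig : Equiv.Perm (Fin 27) where
  toFun := ![2, 5, 12, 13, 18, 0, 21, 16, 15, 11, 26, 20, 19, 14, 23, 1, 3, 9, 4, 8, 6, 10, 7, 25, 24, 22, 17]
  invFun := ![5, 15, 0, 16, 18, 1, 20, 22, 19, 17, 21, 9, 2, 3, 13, 8, 7, 26, 4, 12, 11, 6, 25, 14, 24, 23, 10]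
  left_inv := by decide +kernel
  right_inv := by decide +kernel

/-- the isometry of order 8, as a matrix -/
def Smat : Matrix (Fin 7) (Fin 7) ℤ :=
  ![![2, 0, 0, -1, -1, -1, 0],
    ![0, 0, 0, 0, 0, 0, 1],
    ![1, 0, 0, -1, -1, 0, 0],
    ![0, 1, 0, 0, 0, 0, 0],
    ![1, 0, 0, -1, 0, -1, 0],
    ![1, 0, 0, 0, -1, -1, 0],
    ![0, 0, 1, 0, 0, 0, 0]]

theorem Smat_pow : Smat ^ 8 = 1 := by decide +kernel

theorem sig_pow : sig ^ 8 = 1 := by decide +kernel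

theorem Smat_V : ∀ s, Smat.mulVec (V s) = V (sig s) := by decide +kernel

theorem Smat_p0 : Smat.mulVec p0 = p0 := by decide +kernel

/-- translation labels of the 27 reflections in the affine action on six bits -/
def lam : Fin 27 → BitVec 6 :=
  ![1, 21, 3, 5, 48, 63, 26, 1, 17, 14, 50, 18, 5, 15, 17, 51, 3, 58, 16, 15, 54, 46, 63, 51, 32, 21, 22]

end Pool.Agent.Helper63.Hyp6
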