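import Mathlib

open CategoryTheory

namespace Pool.Agent.Helper63.Hyp6

/-- The Lorentz form of signature `(6,1)` on `ℝ^7`; coordinate `0` is the time coordinate. -/
def lor (x y : Fin 7 → ℝ) : ℝ := -(x 0 * y 0) + ∑ i : Fin 6, x i.succ * y i.succ

/-- Hyperbolic 6-space in the hyperboloid model, as a topological subspace of `ℝ^7`. -/
def H6 : Type := {x : Fin 7 → ℝ // lor x x = -1 ∧ 0 < x 0}

instance : TopologicalSpace H6 := instTopologicalSpaceSubtype

/-- A matrix acts on hyperbolic 6-space as an isometry: it preserves the Lorentz form and does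
not exchange the two sheets of the hyperboloid. Every isometry of `H6` is of this form. -/
def IsIsometry (A : Matrix (Fin 7) (Fin 7) ℝ) : Prop :=
  (∀ x y, lor (A.mulVec x) (A.mulVec y) = lor x y) ∧ 0 < A 0 0

/-- Two points of `H6` are identified when an element of the group moves one to the other. -/
def orbitSetoid (G : Subgroup (GL (Fin 7) ℝ)) : Setoid H6 where
  r x y := ∃ A ∈ G, (A : Matrix (Fin 7) (Fin 7) ℝ).mulVec x.1 = y.1
  iseqv := by
    refine ⟨fun x => ⟨1, G.one_mem, by simp⟩, ?_, ?_⟩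
    · rintro x y ⟨A, hA, h⟩
      refine ⟨A⁻¹, G.inv_mem hA, ?_⟩
      rw [← h, Matrix.mulVec_mulVec, ← Matrix.GeneralLinearGroup.coe_mul]
      simp
    · rintro x y z ⟨A, hA, h⟩ ⟨B, hB, h'⟩
      refine ⟨B * A, G.mul_mem hB hA, ?_⟩
      rw [Matrix.GeneralLinearGroup.coe_mul, ← Matrix.mulVec_mulVec, h, h']

/-- The quotient space `H6 / G` with the quotient topology. -/
def Quot6 (G : Subgroup (GL (Fin 7) ℝ)) : Type := Quotient (orbitSetoid G)

instance (G : Subgroup (GL (Fin 7) ℝ)) : TopologicalSpace (Quot6 G) :=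
  instTopologicalSpaceQuotient

/-- The cone over a subset of hyperbolic space. In the coordinates `v = t x` the Lebesgue measure
of `ℝ^7` is `t^6 dt` times the hyperbolic volume, so the hyperbolic volume of `D` equals seven
times the Lebesgue measure of this cone. -/
def cone (D : Set H6) : Set (Fin 7 → ℝ) :=
  {v | ∃ t : ℝ, 0 < t ∧ t ≤ 1 ∧ ∃ x ∈ D, v = t • x.1}

/-- `G` has finite covolume: some set of finite hyperbolic volume meets every orbit. -/
def FiniteCovolume (G : Subgroup (GL (Fin 7) ℝ)) : Prop :=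
  ∃ D : Set H6, MeasureTheory.volume (cone D) < ⊤ ∧
    ∀ x : H6, ∃ A ∈ G, ∃ y ∈ D, (A : Matrix (Fin 7) (Fin 7) ℝ).mulVec x.1 = y.1

/-- `G` is the group of a complete hyperbolic 6-manifold `H6 / G` of finite volume. -/
structure IsHyperbolicManifoldGroup (G : Subgroup (GL (Fin 7) ℝ)) : Prop where
  isometries : ∀ A ∈ G, IsIsometry (A : Matrix (Fin 7) (Fin 7) ℝ)
  discrete : DiscreteTopology G
  torsionFree : ∀ A ∈ G, ∀ n : ℕ, 0 < n → A ^ n = 1 → A = 1
  finiteCovolume : FiniteCovolume G

/-- Singular homology with rational coefficients. -/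
noncomputable def homology (X : Type) [TopologicalSpace X] (i : ℕ) : ModuleCat.{0} ℚ :=
  ((AlgebraicTopology.singularHomologyFunctor (ModuleCat.{0} ℚ) i).obj
    (ModuleCat.of ℚ ℚ)).obj (TopCat.of X)

/-- `X` has finite-dimensional rational homology, zero in large degrees, and Euler
characteristic `c`. -/
def HasEulerChar (X : Type) [TopologicalSpace X] (c : ℤ) : Prop :=
  (∀ i, Module.Finite ℚ (homology X i)) ∧
  ∃ N : ℕ, (∀ i, N < i → Subsingleton (homology X i)) ∧
    ∑ i ∈ Finset.range (N + 1), (-1 : ℤ) ^ i * Module.finrank ℚ (homology X i) = c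

end Pool.Agent.Helper63.Hyp6
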