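import Pool.Agent.Helper63.Hyp6.Count

namespace Pool.Agent.Helper63.Hyp6

/-- characters are coboundaries for free actions -/
theorem exists_orientation {Γ A : Type} [Group Γ] [MulAction Γ A] (χ : Γ →* ℚ)
    (hχ : ∀ g, χ g * χ g = 1) (hfree : ∀ (g : Γ) (a : A), g • a = a → g = 1) :
    ∃ O : A → ℚ, (∀ a, O a * O a = 1) ∧ ∀ (g : Γ) a, O (g • a) = χ g * O a := by
  classical
  have h1 : ∀ a : A, ∃ g : Γ, g • a = Quotient.out (Quotient.mk (MulAction.orbitRel Γ A) a) := by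
    intro a
    exact MulAction.orbitRel_apply.1 (Quotient.mk_out (s := MulAction.orbitRel Γ A) a)
  choose γ hγ using h1
  refine ⟨fun a => χ (γ a), fun a => hχ _, fun g a => ?_⟩
  have h2 : Quotient.mk (MulAction.orbitRel Γ A) (g • a) = Quotient.mk (MulAction.orbitRel Γ A) a :=
    Quotient.sound (MulAction.orbitRel_apply.2 ⟨g, rfl⟩)
  have h3 : γ (g • a) • g • a = γ a • a := by rw [hγ, hγ, h2]
  have h4 : (γ a)⁻¹ * (γ (g • a) * g) = 1 := by
    apply hfree _ a
    rw [mul_smul, mul_smul, h3, inv_smul_smul]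
  have h5 : γ (g • a) * g = γ a := by
    rw [inv_mul_eq_one] at h4
    exact h4.symm
  simp only
  rw [← h5, map_mul]
  calc χ (γ (g • a)) = χ (γ (g • a)) * (χ g * χ g) := by rw [hχ, mul_one]
    _ = χ g * (χ (γ (g • a)) * χ g) := by ring

/-- extend a finitely supported function on cubes to a chain -/
noncomputable def fn {k : ℕ} (O : K k → ℚ) (z : K k →₀ ℚ) (u : W) (T : Finset (Fin 27)) : ℚ := by
  classical exact
    if h : IsClique T ∧ T.card = k then O (cl u T h.1 h.2) * z (cl u T h.1 h.2) else 0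

theorem fn_pos {k : ℕ} (O : K k → ℚ) (z : K k →₀ ℚ) (u : W) {T : Finset (Fin 27)}
    (h : IsClique T ∧ T.card = k) : fn O z u T = O (cl u T h.1 h.2) * z (cl u T h.1 h.2) := by
  unfold fn
  rw [dif_pos h]

theorem fn_neg {k : ℕ} (O : K k → ℚ) (z : K k →₀ ℚ) (u : W) {T : Finset (Fin 27)}
    (h : ¬ (IsClique T ∧ T.card = k)) : fn O z u T = 0 := by
  unfold fn
  rw [dif_neg h]

theorem cl_mul_sm {k : ℕ} (u : W) {T : Finset (Fin 27)} (hT : IsClique T) (hk : T.card = k)
    {t : Fin 27} (ht : t ∈ T) : cl (u * sm t) T hT hk = cl u T hT hk := by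
  apply Subtype.ext
  change (top (u * sm t) T, T) = (top u T, T)
  rw [top_mul_sm u hT ht]

theorem isChain_fn {k : ℕ} (O : K k → ℚ) (z : K k →₀ ℚ) : IsChain k (fn O z) := by
  classical
  have key : ∀ u T, fn O z u T ≠ 0 → ∃ h : IsClique T ∧ T.card = k,
      z (cl u T h.1 h.2) ≠ 0 := by
    intro u T h
    by_cases hc : IsClique T ∧ T.card = k
    · rw [fn_pos O z u hc] at h
      exact ⟨hc, right_ne_zero_of_mul h⟩
    · rw [fn_neg O z u hc] at h
      exact absurd rfl h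
  refine ⟨fun u T h => (key u T h).1.1, fun u T h => (key u T h).1.2, fun u T t ht => ?_, ?_⟩
  · by_cases hc : IsClique T ∧ T.card = k
    · rw [fn_pos O z _ hc, fn_pos O z _ hc, cl_mul_sm u hc.1 hc.2 ht]
    · rw [fn_neg O z _ hc, fn_neg O z _ hc]
  · apply (Set.Finite.image2 (fun (c : K k) (F : Finset (Fin 27)) => c.1.1 * pr F)
      (Finset.finite_toSet z.support) (Set.toFinite Set.univ)).subset
    rintro u ⟨T, hT⟩
    obtain ⟨h1, h2⟩ := key u T hT
    obtain ⟨F, _, hF2⟩ := exists_top u h1.1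
    refine ⟨cl u T h1.1 h1.2, ?_, F, Set.mem_univ _, hF2.symm⟩
    rw [Finset.mem_coe, Finsupp.mem_support_iff]
    exact h2

theorem fn_self {k : ℕ} (O : K k → ℚ) (z : K k →₀ ℚ) (c : K k) :
    fn O z c.1.1 c.1.2 = O c * z c := by
  rw [fn_pos O z c.1.1 ⟨c.clique, c.2.2⟩, cl_self]

theorem fn_injective {k : ℕ} {O : K k → ℚ} (hO : ∀ c, O c * O c = 1) {z z' : K k →₀ ℚ}
    (h : ∀ u T, fn O z u T = fn O z' u T) : z = z' := by
  ext c
  have h1 := h c.1.1 c.1.2
  rw [fn_self, fn_self] at h1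
  have h2 : O c ≠ 0 := by
    intro h0
    have := hO c
    rw [h0] at this
    norm_num at this
  exact mul_left_cancel₀ h2 h1

theorem fin_toF {k : ℕ} (O : K k → ℚ) {f : W → Finset (Fin 27) → ℚ} (hf : IsChain k f) :
    (Function.support (fun c : K k => O c * f c.1.1 c.1.2)).Finite := by
  have h1 : ((fun c : K k => c.1) ⁻¹' ({u : W | ∃ T, f u T ≠ 0} ×ˢ
      (Set.univ : Set (Finset (Fin 27))))).Finite :=
    Set.Finite.preimage (Subtype.val_injective.injOn) (hf.fin.prod Set.finite_univ)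
  apply h1.subset
  intro c hc
  refine ⟨⟨c.1.2, fun h => hc ?_⟩, Set.mem_univ _⟩
  simp only
  rw [h, mul_zero]

/-- restrict a chain to a finitely supported function on cubes -/
noncomputable def toF {k : ℕ} (O : K k → ℚ) {f : W → Finset (Fin 27) → ℚ} (hf : IsChain k f) :
    K k →₀ ℚ := Finsupp.ofSupportFinite (fun c : K k => O c * f c.1.1 c.1.2) (fin_toF O hf)

theorem toF_apply {k : ℕ} (O : K k → ℚ) {f : W → Finset (Fin 27) → ℚ} (hf : IsChain k f)
    (c : K k) : toF O hf c = O c * f c.1.1 c.1.2 := rfl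

theorem fn_toF {k : ℕ} {O : K k → ℚ} (hO : ∀ c, O c * O c = 1)
    {f : W → Finset (Fin 27) → ℚ} (hf : IsChain k f) (u : W) (T : Finset (Fin 27)) :
    fn O (toF O hf) u T = f u T := by
  by_cases h : IsClique T ∧ T.card = k
  · rw [fn_pos O _ u h, toF_apply, ← mul_assoc, hO, one_mul]
    exact hf.top u h.1
  · rw [fn_neg O _ u h]
    by_contra hne
    exact h ⟨hf.clique _ _ (Ne.symm hne), hf.card _ _ (Ne.symm hne)⟩

theorem fn_add {k : ℕ} (O : K k → ℚ) (z z' : K k →₀ ℚ) (u : W) (T : Finset (Fin 27)) :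
    fn O (z + z') u T = fn O z u T + fn O z' u T := by
  by_cases h : IsClique T ∧ T.card = k
  · rw [fn_pos O _ u h, fn_pos O _ u h, fn_pos O _ u h, Finsupp.add_apply, mul_add]
  · rw [fn_neg O _ u h, fn_neg O _ u h, fn_neg O _ u h, add_zero]

theorem fn_smul {k : ℕ} (O : K k → ℚ) (a : ℚ) (z : K k →₀ ℚ) (u : W) (T : Finset (Fin 27)) :
    fn O (a • z) u T = a * fn O z u T := by
  by_cases h : IsClique T ∧ T.card = k
  · rw [fn_pos O _ u h, fn_pos O _ u h, Finsupp.smul_apply, smul_eq_mul]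
    ring
  · rw [fn_neg O _ u h, fn_neg O _ u h, mul_zero]

theorem fn_zero {k : ℕ} (O : K k → ℚ) (u : W) (T : Finset (Fin 27)) :
    fn O (0 : K k →₀ ℚ) u T = 0 := by
  by_cases h : IsClique T ∧ T.card = k
  · rw [fn_pos O _ u h, Finsupp.zero_apply, mul_zero]
  · rw [fn_neg O _ u h]

/-- the boundary operator on finitely supported functions on cubes -/
noncomputable def dd (O : ∀ k, K k → ℚ) (k : ℕ) : (K (k + 1) →₀ ℚ) →ₗ[ℚ] (K k →₀ ℚ) where
  toFun z := toF (O k) (isChain_fn (O (k + 1)) z).bd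
  map_add' z z' := by
    ext c
    have h1 : fn (O (k + 1)) (z + z') = fun u T => fn (O (k + 1)) z u T + fn (O (k + 1)) z' u T := by
      funext u T
      exact fn_add _ _ _ _ _
    have h2 : bd (fn (O (k + 1)) (z + z')) c.1.1 c.1.2 =
        bd (fn (O (k + 1)) z) c.1.1 c.1.2 + bd (fn (O (k + 1)) z') c.1.1 c.1.2 := by
      rw [h1, bd_add]
    rw [Finsupp.add_apply, toF_apply, toF_apply, toF_apply, h2, mul_add]
  map_smul' a z := by
    ext c
    have h1 : fn (O (k + 1)) (a • z) = fun u T => a * fn (O (k + 1)) z u T := by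
      funext u T
      exact fn_smul _ _ _ _ _
    have h2 : bd (fn (O (k + 1)) (a • z)) c.1.1 c.1.2 =
        a * bd (fn (O (k + 1)) z) c.1.1 c.1.2 := by
      rw [h1, bd_smul]
    rw [Finsupp.smul_apply, toF_apply, toF_apply, RingHom.id_apply, smul_eq_mul, h2]
    ring

theorem fn_dd {O : ∀ k, K k → ℚ} (hO : ∀ k c, O k c * O k c = 1) (k : ℕ) (z : K (k + 1) →₀ ℚ)
    (u : W) (T : Finset (Fin 27)) : fn (O k) (dd O k z) u T = bd (fn (O (k + 1)) z) u T :=
  fn_toF (hO k) (isChain_fn (O (k + 1)) z).bd u T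

theorem bd_congr {f g : W → Finset (Fin 27) → ℚ} (h : ∀ u T, f u T = g u T) (u : W)
    (R : Finset (Fin 27)) : bd f u R = bd g u R := by
  have : f = g := by
    funext u T
    exact h u T
  rw [this]

theorem dd_exact {O : ∀ k, K k → ℚ} (hO : ∀ k c, O k c * O k c = 1) (k : ℕ)
    (z : K (k + 1) →₀ ℚ) : dd O k z = 0 ↔ ∃ y, dd O (k + 1) y = z := by
  constructor
  · intro h
    obtain ⟨y, hy1, hy2⟩ := exact_pos (isChain_fn (O (k + 1)) z) (by
      intro u R
      rw [← fn_dd hO k z u R, h, fn_zero])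
    refine ⟨toF (O (k + 2)) hy1, ?_⟩
    apply fn_injective (hO (k + 1))
    intro u T
    rw [fn_dd hO (k + 1), ← hy2]
    exact bd_congr (fun u T => fn_toF (hO (k + 2)) hy1 u T) u T
  · rintro ⟨y, rfl⟩
    apply fn_injective (hO k)
    intro u T
    rw [fn_zero, fn_dd hO k, bd_congr (fun u T => fn_dd hO (k + 1) y u T)]
    exact bd_bd (isChain_fn (O (k + 2)) y).clique u T

noncomputable def eK0 : W ≃ K 0 where
  toFun u := cl u ∅ isClique_empty rfl
  invFun c := c.1.1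
  left_inv u := top_empty u
  right_inv c := K0_ext (top_empty _)

theorem aug_fn {O : K 0 → ℚ} (hO : ∀ c, O c = par c.1.1) (z : K 0 →₀ ℚ) :
    aug (fn O z) = z.sum fun _ c => c := by
  unfold aug
  have h1 : ∀ u : W, par u * fn O z u ∅ = z (eK0 u) := by
    intro u
    rw [fn_pos O z u ⟨isClique_empty, rfl⟩, hO, ← mul_assoc]
    change par u * par (top u ∅) * z (eK0 u) = z (eK0 u)
    rw [top_empty, par_mul_self, one_mul]
  simp_rw [h1]
  rw [finsum_comp_equiv eK0 (f := fun c => z c)]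
  rw [finsum_eq_sum_of_support_subset (s := z.support)]
  · rfl
  · intro c hc
    rw [Finset.mem_coe, Finsupp.mem_support_iff]
    exact hc

theorem dd_aug {O : ∀ k, K k → ℚ} (hO : ∀ k c, O k c * O k c = 1)
    (hO0 : ∀ c, O 0 c = par c.1.1) (z : K 0 →₀ ℚ) :
    (z.sum fun _ c => c) = 0 ↔ ∃ y, dd O 0 y = z := by
  rw [← aug_fn hO0]
  constructor
  · intro h
    obtain ⟨y, hy1, hy2⟩ := exact_zero (isChain_fn (O 0) z) h
    refine ⟨toF (O 1) hy1, ?_⟩
    apply fn_injective (hO 0)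
    intro u T
    rw [fn_dd hO 0, ← hy2]
    exact bd_congr (fun u T => fn_toF (hO 1) hy1 u T) u T
  · rintro ⟨y, rfl⟩
    have h1 : fn (O 0) (dd O 0 y) = bd (fn (O 1) y) := by
      funext u T
      exact fn_dd hO 0 y u T
    rw [h1]
    exact aug_bd (isChain_fn (O 1) y)

/-! ### equivariance -/

theorem bd_act (g : GG) {f : W → Finset (Fin 27) → ℚ} (hf : ∀ u T, f u T ≠ 0 → IsClique T)
    (u : W) (R : Finset (Fin 27)) :
    bd (fun u T => f (act g u) (mp (sg g) T)) u R = bd f (act g u) (mp (sg g) R) := by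
  unfold bd
  apply Finset.sum_equiv (sg g)
  · intro s
    rw [Finset.mem_compl, Finset.mem_compl, apply_mem_mp]
  · intro s hs
    rw [Finset.mem_compl] at hs
    simp only
    rw [mp_insert]
    by_cases h : f (act g u) (insert (sg g s) (mp (sg g) R)) = 0
    · rw [h, mul_zero, mul_zero]
    · have h1 := hf _ _ h
      rw [← mp_insert, isClique_mp_iff] at h1
      rw [eta_mp g hs h1]

theorem fn_mapDomain {Γ : Subgroup GG} {k : ℕ} {O : K k → ℚ}
    (hO : ∀ (g : Γ) c, O (g • c) = parG g * O c) (g : Γ) (z : K k →₀ ℚ) (u : W)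
    (T : Finset (Fin 27)) :
    fn O (z.mapDomain (g • ·)) u T =
      parG g * fn O z (act (g : GG)⁻¹ u) (mp (sg (g : GG)⁻¹) T) := by
  by_cases h : IsClique T ∧ T.card = k
  · have h' : IsClique (mp (sg (g : GG)⁻¹) T) ∧ (mp (sg (g : GG)⁻¹) T).card = k :=
      ⟨isClique_mp _ h.1, by rw [card_mp]; exact h.2⟩
    rw [fn_pos O _ u h, fn_pos O z _ h']
    set c' := cl (act (g : GG)⁻¹ u) (mp (sg (g : GG)⁻¹) T) h'.1 h'.2 with hc'
    have h1 : g • c' = cl u T h.1 h.2 := by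
      rw [hc', Subgroup.smul_def, smul_cl]
      apply Subtype.ext
      change (top (act (g : GG) (act (g : GG)⁻¹ u)) (mp (sg (g : GG)) (mp (sg (g : GG)⁻¹) T)),
        mp (sg (g : GG)) (mp (sg (g : GG)⁻¹) T)) = (top u T, T)
      rw [act_act_inv, ← mp_mul, ← map_mul, mul_inv_cancel, map_one, mp_one]
    rw [← h1, Finsupp.mapDomain_apply (MulAction.injective g), hO, mul_assoc]
  · rw [fn_neg O _ u h, fn_neg, mul_zero]
    rintro ⟨h1, h2⟩
    apply h
    rw [isClique_mp_iff] at h1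
    rw [card_mp] at h2
    exact ⟨h1, h2⟩

theorem dd_equiv {Γ : Subgroup GG} {O : ∀ k, K k → ℚ} (hOO : ∀ k c, O k c * O k c = 1)
    (hO : ∀ k (g : Γ) c, O k (g • c) = parG g * O k c) (k : ℕ) (g : Γ)
    (z : K (k + 1) →₀ ℚ) :
    dd O k (z.mapDomain (g • ·)) = (dd O k z).mapDomain (g • ·) := by
  apply fn_injective (hOO k)
  intro u R
  rw [fn_dd hOO k, bd_congr (fn_mapDomain (hO (k + 1)) g z),
    bd_smul (parG g) (fun u T => fn (O (k + 1)) z (act (g : GG)⁻¹ u) (mp (sg (g : GG)⁻¹) T)),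
    bd_act (g : GG)⁻¹ (isChain_fn (O (k + 1)) z).clique, fn_mapDomain (hO k), fn_dd hOO k]

theorem exists_O (n : ℕ) : ∃ O : ∀ k, K k → ℚ, (∀ k c, O k c * O k c = 1) ∧
    (∀ k (g : Gam n) c, O k (g • c) = parG g * O k c) ∧ (∀ c, O 0 c = par c.1.1) := by
  have h : ∀ k, ∃ O : K k → ℚ, (∀ c, O c * O c = 1) ∧
      (∀ (g : Gam n) c, O (g • c) = parG g * O c) ∧ (k = 0 → ∀ c, O c = par c.1.1) := by
    intro k
    by_cases hk : k = 0
    · subst hk
      refine ⟨fun c => par c.1.1, fun c => par_mul_self _, fun g c => ?_, fun _ _ => rfl⟩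
      change par (top (act (g : GG) c.1.1) (mp (sg (g : GG)) c.1.2)) = _
      have h1 : c.1.2 = ∅ := Finset.card_eq_zero.1 c.2.2
      rw [h1, mp_empty, top_empty, par_act]
    · obtain ⟨O, h1, h2⟩ := exists_orientation (Γ := Gam n) (A := K k)
        (parG.comp (Gam n).subtype) (fun g => parG_sq _) (Gam_free' n k)
      exact ⟨O, h1, h2, fun h => absurd h hk⟩
  choose O h1 h2 h3 using h
  exact ⟨O, h1, h2, h3 0 rfl⟩

end Pool.Agent.Helper63.Hyp6
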