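import Pool.Agent.Helper63.Hyp6.Aug

namespace Pool.Agent.Helper63.Hyp6

theorem adj_sig' : ∀ s t, adj s t → adj (sig s) (sig t) := by decide +kernel

theorem adj_sig_symm' : ∀ s t, adj s t → adj (sig.symm s) (sig.symm t) := by decide +kernel

noncomputable def autF : W →* W := cs.lift ⟨fun s => sm (sig s), by
  apply liftable_of
  · intro s
    exact sm_sq _
  · intro s t h
    exact sm_comm (adj_sig' s t h)⟩

noncomputable def autB : W →* W := cs.lift ⟨fun s => sm (sig.symm s), by
  apply liftable_of
  · intro s
    exact sm_sq _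
  · intro s t h
    exact sm_comm (adj_sig_symm' s t h)⟩

theorem autF_sm (s : Fin 27) : autF (sm s) = sm (sig s) := cs.lift_apply_simple _ s

theorem autB_sm (s : Fin 27) : autB (sm s) = sm (sig.symm s) := cs.lift_apply_simple _ s

/-- the diagram automorphism -/
noncomputable def aut : MulAut W :=
  { toFun := autF
    invFun := autB
    left_inv := by
      intro w
      have : (autB.comp autF) = MonoidHom.id W := by
        apply cs.ext_simple
        intro i
        change autB (autF (sm i)) = sm i
        rw [autF_sm, autB_sm, Equiv.symm_apply_apply]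
      exact DFunLike.congr_fun this w
    right_inv := by
      intro w
      have : (autF.comp autB) = MonoidHom.id W := by
        apply cs.ext_simple
        intro i
        change autF (autB (sm i)) = sm i
        rw [autB_sm, autF_sm, Equiv.apply_symm_apply]
      exact DFunLike.congr_fun this w
    map_mul' := fun a b => map_mul autF a b }

theorem aut_sm (s : Fin 27) : aut (sm s) = sm (sig s) := autF_sm s

theorem aut_pow_sm (k : ℕ) (s : Fin 27) : (aut ^ k) (sm s) = sm ((sig ^ k) s) := by
  induction k generalizing s with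
  | zero => simp
  | succ k ih =>
    rw [pow_succ, pow_succ, MulAut.mul_apply, aut_sm, ih, Equiv.Perm.mul_apply]

theorem aut_pow : aut ^ 8 = 1 := by
  apply MulEquiv.toMonoidHom_injective
  apply cs.ext_simple
  intro i
  change (aut ^ 8) (sm i) = sm i
  rw [aut_pow_sm, sig_pow]
  rfl

abbrev C8 : Type := Multiplicative (ZMod 8)

def pw {M : Type*} [Monoid M] (a : M) (j : C8) : M := a ^ (Multiplicative.toAdd j).val

theorem pw_one {M : Type*} [Monoid M] (a : M) : pw a 1 = 1 := by
  unfold pw
  simp

theorem pw_mul {M : Type*} [Monoid M] {a : M} (ha : a ^ 8 = 1) (i j : C8) :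
    pw a (i * j) = pw a i * pw a j := by
  unfold pw
  rw [toAdd_mul, ZMod.val_add, ← pow_add]
  exact (pow_eq_pow_mod _ ha).symm

noncomputable def theta : C8 →* MulAut W where
  toFun := pw aut
  map_one' := pw_one _
  map_mul' := pw_mul aut_pow

/-- the reflection group extended by the symmetry of order 8 -/
abbrev GG : Type := W ⋊[theta] C8

theorem pow_mul_lift {M : Type*} [Monoid M] (f : W →* M) (a : M)
    (h : ∀ s, a * f (sm s) = f (sm (sig s)) * a) (w : W) : a * f w = f (aut w) * a := by
  induction w using cs.simple_induction with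
  | simple s => rw [h, aut_sm]
  | one => simp
  | mul w w' h1 h2 => rw [map_mul, map_mul, map_mul, ← mul_assoc, h1, mul_assoc, h2, mul_assoc]

theorem pow_mul_lift' {M : Type*} [Monoid M] (f : W →* M) (a : M)
    (h : ∀ s, a * f (sm s) = f (sm (sig s)) * a) (w : W) (k : ℕ) :
    a ^ k * f w = f ((aut ^ k) w) * a ^ k := by
  induction k generalizing w with
  | zero => simp
  | succ k ih =>
    rw [pow_succ, mul_assoc, pow_mul_lift f a h, ← mul_assoc, ih, mul_assoc, pow_succ]
    rfl

/-- homomorphisms out of the extended group -/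
noncomputable def liftM {M : Type*} [Monoid M] (f : W →* M) (a : M) (ha : a ^ 8 = 1)
    (h : ∀ s, a * f (sm s) = f (sm (sig s)) * a) : GG →* M where
  toFun g := f g.left * pw a g.right
  map_one' := by
    rw [SemidirectProduct.one_left, SemidirectProduct.one_right, map_one, pw_one, one_mul]
  map_mul' g g' := by
    rw [SemidirectProduct.mul_left, SemidirectProduct.mul_right, pw_mul ha, map_mul]
    have h1 : pw a g.right * f g'.left = f (theta g.right g'.left) * pw a g.right :=
      pow_mul_lift' f a h g'.left _
    rw [mul_assoc, ← mul_assoc (f (theta g.right g'.left)), ← h1]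
    simp only [mul_assoc]

theorem liftM_apply {M : Type*} [Monoid M] (f : W →* M) (a : M) (ha : a ^ 8 = 1)
    (h : ∀ s, a * f (sm s) = f (sm (sig s)) * a) (g : GG) :
    liftM f a ha h g = f g.left * pw a g.right := rfl

/-- action on the facets -/
noncomputable def sg : GG →* Equiv.Perm (Fin 27) :=
  liftM 1 sig sig_pow (fun s => by simp)

theorem sg_apply (g : GG) : sg g = pw sig g.right := by
  unfold sg
  rw [liftM_apply]
  simp

theorem adj_sg (g : GG) {s t : Fin 27} (h : adj s t) : adj (sg g s) (sg g t) := by
  rw [sg_apply]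
  unfold pw
  generalize (Multiplicative.toAdd g.right).val = k
  induction k with
  | zero => simpa using h
  | succ k ih =>
    rw [pow_succ', Equiv.Perm.mul_apply, Equiv.Perm.mul_apply]
    exact adj_sig' _ _ ih

theorem chi_sg (g : GG) {s t : Fin 27} (h : adj s t) : chi (sg g s) (sg g t) = chi s t := by
  rw [sg_apply]
  unfold pw
  generalize (Multiplicative.toAdd g.right).val = k
  have : adj ((sig ^ k) s) ((sig ^ k) t) ∧ chi ((sig ^ k) s) ((sig ^ k) t) = chi s t := by
    induction k with
    | zero => exact ⟨by simpa using h, by simp⟩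
    | succ k ih =>
      rw [pow_succ', Equiv.Perm.mul_apply, Equiv.Perm.mul_apply]
      exact ⟨adj_sig' _ _ ih.1, by rw [chi_sig ih.1, ih.2]⟩
  exact this.2

/-- action on the vertices of the cubical complex -/
noncomputable def act (g : GG) (u : W) : W := g.left * theta g.right u

theorem act_one (u : W) : act 1 u = u := by
  unfold act
  rw [SemidirectProduct.one_left, SemidirectProduct.one_right, map_one, one_mul]
  rfl

theorem act_mul (g h : GG) (u : W) : act (g * h) u = act g (act h u) := by
  unfold act
  rw [SemidirectProduct.mul_left, SemidirectProduct.mul_right, map_mul theta, MulAut.mul_apply,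
    map_mul (theta g.right), mul_assoc]

theorem act_inv_act (g : GG) (u : W) : act g⁻¹ (act g u) = u := by
  rw [← act_mul, inv_mul_cancel, act_one]

theorem act_act_inv (g : GG) (u : W) : act g (act g⁻¹ u) = u := by
  rw [← act_mul, mul_inv_cancel, act_one]

theorem act_mul_sm (g : GG) (u : W) (s : Fin 27) : act g (u * sm s) = act g u * sm (sg g s) := by
  unfold act
  rw [map_mul, ← mul_assoc, sg_apply]
  congr 1
  exact aut_pow_sm _ s

theorem act_eq (g : GG) (u : W) : g * SemidirectProduct.inl u =
    SemidirectProduct.inl (act g u) * SemidirectProduct.inr g.right := by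
  apply SemidirectProduct.ext
  · simp [act]
  · simp

/-- parity on the extended group -/
noncomputable def parG : GG →* ℚ :=
  liftM par 1 (one_pow 8) (fun s => by rw [par_sm, par_sm]; norm_num)

theorem parG_apply (g : GG) : parG g = par g.left := by
  unfold parG
  rw [liftM_apply]
  unfold pw
  rw [one_pow, mul_one]

theorem par_aut (w : W) : par (aut w) = par w := by
  have h : par.comp aut.toMonoidHom = par := by
    apply cs.ext_simple
    intro s
    change par (aut (sm s)) = par (sm s)
    rw [aut_sm, par_sm, par_sm]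
  exact DFunLike.congr_fun h w

theorem par_theta (j : C8) (w : W) : par (theta j w) = par w := by
  have : ∀ k : ℕ, par ((aut ^ k) w) = par w := by
    intro k
    induction k with
    | zero => simp
    | succ k ih => rw [pow_succ', MulAut.mul_apply, par_aut, ih]
  exact this _

theorem par_act (g : GG) (u : W) : par (act g u) = parG g * par u := by
  unfold act
  rw [map_mul, par_theta, parG_apply]

theorem parG_sq (g : GG) : parG g * parG g = 1 := by
  rw [parG_apply, par_mul_self]

/-! ### images of sets of facets -/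

def mp (π : Equiv.Perm (Fin 27)) (T : Finset (Fin 27)) : Finset (Fin 27) := T.map π.toEmbedding

theorem mem_mp {π : Equiv.Perm (Fin 27)} {T : Finset (Fin 27)} {s : Fin 27} :
    s ∈ mp π T ↔ ∃ t ∈ T, π t = s := by
  unfold mp
  rw [Finset.mem_map]
  rfl

theorem apply_mem_mp {π : Equiv.Perm (Fin 27)} {T : Finset (Fin 27)} {s : Fin 27} :
    π s ∈ mp π T ↔ s ∈ T := by
  rw [mem_mp]
  constructor
  · rintro ⟨t, ht, h⟩
    rw [← π.injective h]
    exact ht
  · intro h
    exact ⟨s, h, rfl⟩

theorem mp_one (T : Finset (Fin 27)) : mp 1 T = T := by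
  ext s
  rw [mem_mp]
  simp

theorem mp_mul (π ρ : Equiv.Perm (Fin 27)) (T : Finset (Fin 27)) :
    mp (π * ρ) T = mp π (mp ρ T) := by
  ext s
  simp only [mem_mp, Equiv.Perm.mul_apply]
  constructor
  · rintro ⟨t, ht, h⟩
    exact ⟨ρ t, ⟨t, ht, rfl⟩, h⟩
  · rintro ⟨_, ⟨t, ht, rfl⟩, h⟩
    exact ⟨t, ht, h⟩

theorem card_mp (π : Equiv.Perm (Fin 27)) (T : Finset (Fin 27)) : (mp π T).card = T.card :=
  Finset.card_map _

theorem mp_empty (π : Equiv.Perm (Fin 27)) : mp π ∅ = ∅ := rfl

theorem mp_insert (π : Equiv.Perm (Fin 27)) (s : Fin 27) (T : Finset (Fin 27)) :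
    mp π (insert s T) = insert (π s) (mp π T) := by
  unfold mp
  rw [Finset.map_insert]
  rfl

theorem mp_mono {π : Equiv.Perm (Fin 27)} {T U : Finset (Fin 27)} (h : T ⊆ U) :
    mp π T ⊆ mp π U := Finset.map_subset_map.2 h

theorem isClique_mp (g : GG) {T : Finset (Fin 27)} (hT : IsClique T) :
    IsClique (mp (sg g) T) := by
  intro s hs t ht hst
  rw [mem_mp] at hs ht
  obtain ⟨a, ha, rfl⟩ := hs
  obtain ⟨b, hb, rfl⟩ := ht
  exact adj_sg g (hT a ha b hb (fun h => hst (by rw [h])))

theorem isClique_mp_iff (g : GG) {T : Finset (Fin 27)} : IsClique (mp (sg g) T) ↔ IsClique T := by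
  refine ⟨fun h => ?_, isClique_mp g⟩
  have := isClique_mp g⁻¹ h
  rwa [← mp_mul, ← map_mul, inv_mul_cancel, map_one, mp_one] at this

theorem eta_mp (g : GG) {R : Finset (Fin 27)} {s : Fin 27} (hs : s ∉ R)
    (h : IsClique (insert s R)) : eta (mp (sg g) R) (sg g s) = eta R s := by
  unfold eta mp
  rw [Finset.prod_map]
  apply Finset.prod_congr rfl
  intro b hb
  exact chi_sg g (adj_of_insert h hb (fun h1 => hs (h1 ▸ hb)))

theorem act_mul_pr (g : GG) (u : W) {F : Finset (Fin 27)} (hF : IsClique F) :
    act g (u * pr F) = act g u * pr (mp (sg g) F) := by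
  induction F using Finset.induction_on generalizing u with
  | empty => rw [mp_empty, pr_empty, mul_one, mul_one]
  | insert t F ht ih =>
    have h1 := isClique_mp g hF
    rw [mp_insert] at h1
    rw [pr_insert hF ht, ← mul_assoc, ih _ (hF.mono (Finset.subset_insert _ _)), act_mul_sm,
      mp_insert, pr_insert h1 (by rw [apply_mem_mp]; exact ht), mul_assoc]

theorem top_act_top (g : GG) (u : W) {T : Finset (Fin 27)} (hT : IsClique T) :
    top (act g (top u T)) (mp (sg g) T) = top (act g u) (mp (sg g) T) := by
  have h : top u T = u * pr (T \ D u) := rfl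
  rw [h, act_mul_pr g u (hT.mono Finset.sdiff_subset), top_mul_pr _ (isClique_mp g hT)]
  exact mp_mono Finset.sdiff_subset

/-- the cubes of dimension `k` (vertex of maximal length, directions) -/
def K (k : ℕ) : Type := {c : W × Finset (Fin 27) // c.2 ⊆ D c.1 ∧ c.2.card = k}

noncomputable def cl {k : ℕ} (u : W) (T : Finset (Fin 27)) (hT : IsClique T)
    (hk : T.card = k) : K k := ⟨(top u T, T), subset_D_top u hT, hk⟩

theorem K.clique {k : ℕ} (c : K k) : IsClique c.1.2 := (isClique_D _).mono c.2.1

theorem cl_self {k : ℕ} (c : K k) : cl c.1.1 c.1.2 c.clique c.2.2 = c := by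
  apply Subtype.ext
  change (top c.1.1 c.1.2, c.1.2) = c.1
  rw [top_eq_self c.2.1]

noncomputable instance (k : ℕ) : MulAction GG (K k) where
  smul g c := cl (act g c.1.1) (mp (sg g) c.1.2) (isClique_mp g c.clique)
    (by rw [card_mp]; exact c.2.2)
  one_smul c := by
    apply Subtype.ext
    change (top (act 1 c.1.1) (mp (sg 1) c.1.2), mp (sg 1) c.1.2) = c.1
    rw [act_one, map_one, mp_one, top_eq_self c.2.1]
  mul_smul g h c := by
    apply Subtype.ext
    change (top (act (g * h) c.1.1) (mp (sg (g * h)) c.1.2), mp (sg (g * h)) c.1.2) =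
      (top (act g (top (act h c.1.1) (mp (sg h) c.1.2))) (mp (sg g) (mp (sg h) c.1.2)),
        mp (sg g) (mp (sg h) c.1.2))
    rw [act_mul, map_mul, mp_mul, top_act_top g _ (isClique_mp h c.clique)]

theorem smul_cl {k : ℕ} (g : GG) (u : W) (T : Finset (Fin 27)) (hT : IsClique T)
    (hk : T.card = k) : g • (cl u T hT hk) =
      cl (act g u) (mp (sg g) T) (isClique_mp g hT) (by rw [card_mp]; exact hk) := by
  apply Subtype.ext
  change (top (act g (top u T)) (mp (sg g) T), mp (sg g) T) =
    (top (act g u) (mp (sg g) T), mp (sg g) T)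
  rw [top_act_top g u hT]

theorem smul_val {k : ℕ} (g : GG) (c : K k) :
    (g • c).1 = (top (act g c.1.1) (mp (sg g) c.1.2), mp (sg g) c.1.2) := rfl

end Pool.Agent.Helper63.Hyp6
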