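import Mathlib

namespace Pool.Agent.Helper63.Hyp6

/-- integral Lorentz form of signature `(6,1)` -/
def bil (x y : Fin 7 → ℤ) : ℤ := -(x 0 * y 0) + ∑ i : Fin 6, x i.succ * y i.succ

theorem bil_comm (x y : Fin 7 → ℤ) : bil x y = bil y x := by
  unfold bil
  rw [mul_comm (x 0)]
  congr 1
  apply Finset.sum_congr rfl
  intro i _
  ring

theorem bil_add_left (x y z : Fin 7 → ℤ) : bil (x + y) z = bil x z + bil y z := by
  unfold bil
  simp only [Pi.add_apply, add_mul, Finset.sum_add_distrib]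
  ring

theorem bil_smul_left (a : ℤ) (x z : Fin 7 → ℤ) : bil (a • x) z = a * bil x z := by
  unfold bil
  simp only [Pi.smul_apply, smul_eq_mul, mul_add, Finset.mul_sum]
  congr 1
  · ring
  · apply Finset.sum_congr rfl
    intro i _
    ring

theorem bil_add_right (x y z : Fin 7 → ℤ) : bil z (x + y) = bil z x + bil z y := by
  rw [bil_comm, bil_add_left, bil_comm x, bil_comm y]

theorem bil_smul_right (a : ℤ) (x z : Fin 7 → ℤ) : bil z (a • x) = a * bil z x := by
  rw [bil_comm, bil_smul_left, bil_comm x]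

theorem bil_neg_right (x z : Fin 7 → ℤ) : bil z (-x) = - bil z x := by
  have := bil_smul_right (-1) x z
  simpa using this

theorem bil_sub_right (x y z : Fin 7 → ℤ) : bil z (x - y) = bil z x - bil z y := by
  rw [sub_eq_add_neg, bil_add_right, bil_neg_right, sub_eq_add_neg]

theorem bil_sub_left (x y z : Fin 7 → ℤ) : bil (x - y) z = bil x z - bil y z := by
  rw [bil_comm, bil_sub_right, bil_comm x, bil_comm y]

theorem bil_zero_right (z : Fin 7 → ℤ) : bil z 0 = 0 := by
  have := bil_smul_right 0 0 z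
  simpa using this

theorem bil_sum_right {κ : Type*} (s : Finset κ) (f : κ → Fin 7 → ℤ) (z : Fin 7 → ℤ) :
    bil z (∑ i ∈ s, f i) = ∑ i ∈ s, bil z (f i) := by
  classical
  induction s using Finset.induction_on with
  | empty => simp [bil_zero_right]
  | insert i s hi ih => rw [Finset.sum_insert hi, Finset.sum_insert hi, bil_add_right, ih]

/-- nonzero future directed causal vectors -/
def Causal (x : Fin 7 → ℤ) : Prop := bil x x ≤ 0 ∧ 0 < x 0

theorem causal_bil_nonpos {x y : Fin 7 → ℤ} (hx : Causal x) (hy : Causal y) : bil x y ≤ 0 := by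
  obtain ⟨hx1, hx0⟩ := hx
  obtain ⟨hy1, hy0⟩ := hy
  unfold bil at *
  have hcs := Finset.sum_mul_sq_le_sq_mul_sq (Finset.univ : Finset (Fin 6))
    (fun i => x i.succ) (fun i => y i.succ)
  have h1 : ∑ i : Fin 6, x i.succ ^ 2 ≤ x 0 ^ 2 := by
    have : ∑ i : Fin 6, x i.succ ^ 2 = ∑ i : Fin 6, x i.succ * x i.succ :=
      Finset.sum_congr rfl (fun i _ => by ring)
    rw [this]; nlinarith
  have h2 : ∑ i : Fin 6, y i.succ ^ 2 ≤ y 0 ^ 2 := by
    have : ∑ i : Fin 6, y i.succ ^ 2 = ∑ i : Fin 6, y i.succ * y i.succ :=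
      Finset.sum_congr rfl (fun i _ => by ring)
    rw [this]; nlinarith
  have h3 : (0 : ℤ) ≤ ∑ i : Fin 6, y i.succ ^ 2 := Finset.sum_nonneg (fun i _ => sq_nonneg _)
  have h4 : (∑ i : Fin 6, x i.succ * y i.succ) ^ 2 ≤ (x 0 * y 0) ^ 2 := by
    calc (∑ i : Fin 6, x i.succ * y i.succ) ^ 2
        ≤ (∑ i : Fin 6, x i.succ ^ 2) * (∑ i : Fin 6, y i.succ ^ 2) := hcs
      _ ≤ x 0 ^ 2 * (∑ i : Fin 6, y i.succ ^ 2) := mul_le_mul_of_nonneg_right h1 h3
      _ ≤ x 0 ^ 2 * y 0 ^ 2 := mul_le_mul_of_nonneg_left h2 (sq_nonneg _)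
      _ = (x 0 * y 0) ^ 2 := by ring
  have h5 : 0 ≤ x 0 * y 0 := by positivity
  have h6 := abs_le_of_sq_le_sq h4 h5
  have := le_trans (le_abs_self _) h6
  linarith

theorem timelike_bil_neg {x y : Fin 7 → ℤ} (hx : Causal x) (hxx : bil x x < 0)
    (hy : Causal y) : bil x y < 0 := by
  obtain ⟨hx1, hx0⟩ := hx
  obtain ⟨hy1, hy0⟩ := hy
  unfold bil at *
  have hcs := Finset.sum_mul_sq_le_sq_mul_sq (Finset.univ : Finset (Fin 6))
    (fun i => x i.succ) (fun i => y i.succ)
  have h1 : ∑ i : Fin 6, x i.succ ^ 2 < x 0 ^ 2 := by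
    have : ∑ i : Fin 6, x i.succ ^ 2 = ∑ i : Fin 6, x i.succ * x i.succ :=
      Finset.sum_congr rfl (fun i _ => by ring)
    rw [this]; nlinarith
  have h2 : ∑ i : Fin 6, y i.succ ^ 2 ≤ y 0 ^ 2 := by
    have : ∑ i : Fin 6, y i.succ ^ 2 = ∑ i : Fin 6, y i.succ * y i.succ :=
      Finset.sum_congr rfl (fun i _ => by ring)
    rw [this]; nlinarith
  have h3 : (0 : ℤ) ≤ ∑ i : Fin 6, x i.succ ^ 2 := Finset.sum_nonneg (fun i _ => sq_nonneg _)
  have hy2 : 0 < y 0 ^ 2 := by positivity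
  have h4 : (∑ i : Fin 6, x i.succ * y i.succ) ^ 2 < (x 0 * y 0) ^ 2 := by
    calc (∑ i : Fin 6, x i.succ * y i.succ) ^ 2
        ≤ (∑ i : Fin 6, x i.succ ^ 2) * (∑ i : Fin 6, y i.succ ^ 2) := hcs
      _ ≤ (∑ i : Fin 6, x i.succ ^ 2) * y 0 ^ 2 := mul_le_mul_of_nonneg_left h2 h3
      _ < x 0 ^ 2 * y 0 ^ 2 := mul_lt_mul_of_pos_right h1 hy2
      _ = (x 0 * y 0) ^ 2 := by ring
  have h5 : 0 ≤ x 0 * y 0 := by positivity
  have h6 := abs_lt_of_sq_lt_sq h4 h5
  have := (abs_lt.1 h6).2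
  linarith

/-- a causal vector with negative product with a future one is future -/
theorem future_of_bil_neg {x y : Fin 7 → ℤ} (hx : Causal x) (hy : bil y y ≤ 0)
    (hxy : bil x y < 0) : Causal y := by
  refine ⟨hy, ?_⟩
  by_contra h
  push Not at h
  rcases lt_or_eq_of_le h with h | h
  · have h1 : Causal (-y) := by
      refine ⟨?_, by simpa using h⟩
      rw [bil_neg_right, bil_comm, bil_neg_right]
      simpa using hy
    have h2 := causal_bil_nonpos hx h1
    rw [bil_neg_right] at h2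
    linarith
  · -- y 0 = 0 forces y = 0
    have h1 : ∑ i : Fin 6, y i.succ * y i.succ ≤ 0 := by
      unfold bil at hy
      rw [h] at hy
      simpa using hy
    have h2 : ∀ i ∈ (Finset.univ : Finset (Fin 6)), 0 ≤ y i.succ * y i.succ :=
      fun i _ => mul_self_nonneg _
    have h3 := (Finset.sum_eq_zero_iff_of_nonneg h2).1 (le_antisymm h1 (Finset.sum_nonneg h2))
    have h4 : y = 0 := by
      funext j
      refine Fin.cases h (fun i => ?_) j
      exact mul_self_eq_zero.1 (h3 i (Finset.mem_univ i))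
    rw [h4, bil_zero_right] at hxy
    exact lt_irrefl _ hxy

/-- reflection in a vector of norm one -/
def rfl1 (v : Fin 7 → ℤ) : (Fin 7 → ℤ) →ₗ[ℤ] (Fin 7 → ℤ) where
  toFun x := x - (2 * bil x v) • v
  map_add' x y := by
    rw [bil_add_left, mul_add, add_smul]
    abel
  map_smul' a x := by
    rw [bil_smul_left, RingHom.id_apply, smul_sub, smul_smul]
    congr 2
    ring

theorem rfl1_apply (v x : Fin 7 → ℤ) : rfl1 v x = x - (2 * bil x v) • v := rfl

theorem rfl1_self {v : Fin 7 → ℤ} (hv : bil v v = 1) : rfl1 v v = -v := by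
  rw [rfl1_apply, hv]
  rw [mul_one, two_smul]
  abel

theorem rfl1_orth {v x : Fin 7 → ℤ} (h : bil x v = 0) : rfl1 v x = x := by
  rw [rfl1_apply, h]
  simp

theorem bil_rfl1 {v : Fin 7 → ℤ} (hv : bil v v = 1) (x y : Fin 7 → ℤ) :
    bil (rfl1 v x) (rfl1 v y) = bil x y := by
  rw [rfl1_apply, rfl1_apply, bil_sub_left, bil_sub_right, bil_sub_right, bil_smul_left,
    bil_smul_left, bil_smul_right, bil_smul_right, hv, bil_comm v y]
  ring

theorem rfl1_rfl1 {v : Fin 7 → ℤ} (hv : bil v v = 1) (x : Fin 7 → ℤ) :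
    rfl1 v (rfl1 v x) = x := by
  rw [rfl1_apply v x, map_sub, map_smul, rfl1_self hv, rfl1_apply]
  rw [smul_neg]
  abel

theorem bil_rfl1_left {v : Fin 7 → ℤ} (hv : bil v v = 1) (x y : Fin 7 → ℤ) :
    bil (rfl1 v x) y = bil x (rfl1 v y) := by
  have := bil_rfl1 hv x (rfl1 v y)
  rw [rfl1_rfl1 hv] at this
  exact this

theorem rfl1_comm {v w : Fin 7 → ℤ} (h : bil v w = 0) (x : Fin 7 → ℤ) :
    rfl1 v (rfl1 w x) = rfl1 w (rfl1 v x) := by
  have h1 : rfl1 v w = w := rfl1_orth (by rw [bil_comm]; exact h)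
  have h2 : rfl1 w v = v := rfl1_orth h
  rw [rfl1_apply w x, map_sub, map_smul, h1, rfl1_apply v x, map_sub, map_smul, h2,
    rfl1_apply w x]
  abel

theorem causal_rfl1 {v : Fin 7 → ℤ} (hv : bil v v = 1) {x : Fin 7 → ℤ} (hx : Causal x) :
    Causal (rfl1 v x) := by
  by_cases h0 : bil x v = 0
  · rw [rfl1_orth h0]; exact hx
  · apply future_of_bil_neg hx
    · rw [bil_rfl1 hv]; exact hx.1
    · rw [rfl1_apply, bil_sub_right, bil_smul_right]
      have h1 : 0 < bil x v * bil x v := mul_self_pos.2 h0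
      have h2 := hx.1
      nlinarith

/-- all coordinates odd -/
def AllOdd (x : Fin 7 → ℤ) : Prop := ∀ i, Odd (x i)

theorem odd_bil {q u : Fin 7 → ℤ} (hq : AllOdd q) (hu : bil u u = 1) : Odd (bil q u) := by
  have h1 : Even (bil q u - bil u u) := by
    have h2 : bil q u - bil u u = -((q 0 - u 0) * u 0) +
        ∑ i : Fin 6, (q i.succ - u i.succ) * u i.succ := by
      unfold bil
      have : ∑ i : Fin 6, (q i.succ - u i.succ) * u i.succ =
          ∑ i : Fin 6, q i.succ * u i.succ - ∑ i : Fin 6, u i.succ * u i.succ := by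
        rw [← Finset.sum_sub_distrib]
        apply Finset.sum_congr rfl
        intro i _
        ring
      rw [this]
      ring
    have key : ∀ j, Even ((q j - u j) * u j) := by
      intro j
      rcases Int.even_or_odd (u j) with h | h
      · exact h.mul_left _
      · exact ((hq j).sub_odd h).mul_right _
    rw [h2]
    apply Even.add
    · exact (key 0).neg
    · exact Finset.even_sum _ (fun i _ => key i.succ)
  rw [hu] at h1
  obtain ⟨m, hm⟩ := h1
  exact ⟨m, by linarith⟩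

end Pool.Agent.Helper63.Hyp6
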