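import Pool.Agent.Helper63.Hyp6.Mat
import Pool.Agent.Helper87.Hyp6TMain
import Pool.Agent.Helper96.Hyp6P

namespace Pool.Agent.Helper63.Hyp6

theorem main (n : ℕ) (hn : 1 ≤ n) :
    ∃ G : Subgroup (GL (Fin 7) ℝ), IsHyperbolicManifoldGroup G ∧ HasEulerChar (Quot6 G) (-n) := by
  have : NeZero n := ⟨by omega⟩
  have := finiteIndex_Gam n
  have := Pool.Agent.Helper87.Hyp6V.contractibleSpace_H6
  refine ⟨Pool.Agent.Helper96.Hyp6P.imG rhoGL (Gam n), ?_, ?_⟩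
  · exact Pool.Agent.Helper96.Hyp6P.P_manifold rhoGL rhoGL_injective rhoGL_bil rhoGL_fut
      rhoGL_wall (Gam n) (Gam_torsionFree n)
  · obtain ⟨i1, i2, h1, h2, h3⟩ := Pool.Agent.Helper96.Hyp6P.P_action rhoGL rhoGL_injective
      rhoGL_bil rhoGL_fut (Gam n) (Gam_torsionFree n)
    obtain ⟨O, hOO, hO, hO0⟩ := exists_O n
    have h4 := Pool.Agent.Helper87.Hyp6T.hasEulerChar_of_free_complex (X := H6) (Γ := Gam n) h1 K
      (Gam_free' n) (dd O) (dd_equiv hOO hO) (dd_exact hOO) (dd_aug hOO hO0) ⟨eK0 1⟩ 6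
      (fun k hk => K_empty hk) (fun k => finite_K n k) _ h2 h3
    rw [euler_sum n] at h4
    exact h4

end Pool.Agent.Helper63.Hyp6
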