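import Pool.Agent.Helper63.Hyp6.Fin

namespace Pool.Agent.Helper63.Hyp6

/-- the integral matrices of the extended group -/
noncomputable def matE : GG →* Matrix (Fin 7) (Fin 7) ℤ :=
  (LinearMap.toMatrixAlgEquiv' : Module.End ℤ (Fin 7 → ℤ) ≃ₐ[ℤ]
    Matrix (Fin 7) (Fin 7) ℤ).toAlgHom.toMonoidHom.comp rhoE

theorem matE_mulVec (g : GG) (x : Fin 7 → ℤ) : (matE g).mulVec x = rhoE g x := by
  have h : matE g = LinearMap.toMatrix' (rhoE g) := rfl
  rw [h, LinearMap.toMatrix'_mulVec]

noncomputable def rhoGL : GG →* GL (Fin 7) ℤ := matE.toHomUnits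

theorem rhoGL_val (g : GG) : (rhoGL g).1 = matE g := rfl

theorem rhoGL_injective : Function.Injective rhoGL := by
  intro g h hgh
  apply rhoE_injective
  have h1 : matE g = matE h := congrArg Units.val hgh
  apply LinearMap.ext
  intro x
  rw [← matE_mulVec, ← matE_mulVec, h1]

theorem rhoGL_bil (w : GG) (x y : Fin 7 → ℤ) :
    bil ((rhoGL w).1.mulVec x) ((rhoGL w).1.mulVec y) = bil x y := by
  rw [rhoGL_val, matE_mulVec, matE_mulVec, bil_rhoE]

theorem rhoGL_fut (w : GG) : 0 < (rhoGL w).1 0 0 := by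
  have h1 : Causal (Pi.single 0 1 : Fin 7 → ℤ) := by
    constructor <;> decide
  have h2 := (causal_rhoE w h1).2
  rw [← matE_mulVec, Matrix.mulVec_single_one] at h2
  exact h2

theorem rhoGL_wall (s : Fin 27) :
    ∃ w : GG, ∀ x : Fin 7 → ℤ, (rhoGL w).1.mulVec x = rfl1 (V s) x := by
  refine ⟨SemidirectProduct.inl (sm s), fun x => ?_⟩
  rw [rhoGL_val, matE_mulVec, rhoE_inl, rho_sm]

theorem finiteIndex_Gam (n : ℕ) [NeZero n] : (Gam n).FiniteIndex := by
  have hinj : Function.Injective (fun q : GG ⧸ Gam n =>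
      Quotient.liftOn' q (fun g => ((actX g 0, actY n g 0) : BitVec 6 × ZMod n)) (by
        intro g h hgh
        rw [QuotientGroup.leftRel_apply] at hgh
        obtain ⟨h1, h2⟩ := hgh
        rw [map_mul, Equiv.Perm.mul_apply, map_inv, Equiv.Perm.inv_eq_iff_eq] at h1 h2
        rw [h1, h2])) := by
    intro a b
    induction a using Quotient.inductionOn' with
    | h g =>
      induction b using Quotient.inductionOn' with
      | h g' =>
        intro he
        obtain ⟨e1, e2⟩ := Prod.mk.inj he
        apply Quotient.sound'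
        rw [QuotientGroup.leftRel_apply]
        constructor
        · rw [map_mul, Equiv.Perm.mul_apply, map_inv, Equiv.Perm.inv_eq_iff_eq]
          exact e1.symm
        · rw [map_mul, Equiv.Perm.mul_apply, map_inv, Equiv.Perm.inv_eq_iff_eq]
          exact e2.symm
  have hfin : Finite (GG ⧸ Gam n) := Finite.of_injective _ hinj
  exact Subgroup.finiteIndex_of_finite_quotient

end Pool.Agent.Helper63.Hyp6
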