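import Pool.Agent.Helper63.Hyp6.Gp

namespace Pool.Agent.Helper63.Hyp6

/-- the isometry of order 8 as a linear map -/
noncomputable def SLin : Module.End ℤ (Fin 7 → ℤ) := Matrix.toLin' Smat

theorem SLin_apply (x : Fin 7 → ℤ) : SLin x = Smat.mulVec x := rfl

theorem SLin_pow_apply (k : ℕ) (x : Fin 7 → ℤ) : (SLin ^ k) x = (Smat ^ k).mulVec x := by
  induction k generalizing x with
  | zero => simp
  | succ k ih =>
    rw [pow_succ, pow_succ, Module.End.mul_apply, ih, SLin_apply, Matrix.mulVec_mulVec]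

theorem SLin_pow : SLin ^ 8 = 1 := by
  apply LinearMap.ext
  intro x
  rw [SLin_pow_apply, Smat_pow, Matrix.one_mulVec]
  rfl

theorem SLin_V (s : Fin 27) : SLin (V s) = V (sig s) := Smat_V s

theorem SLin_p0 : SLin p0 = p0 := Smat_p0

theorem bil_SLin (x y : Fin 7 → ℤ) : bil (SLin x) (SLin y) = bil x y := by
  rw [SLin_apply, SLin_apply]
  unfold bil Smat
  simp [Fin.sum_univ_succ, Matrix.mulVec, dotProduct]
  ring

theorem SLin_rfl1 (s : Fin 27) : SLin * rfl1 (V s) = rfl1 (V (sig s)) * SLin := by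
  apply LinearMap.ext
  intro x
  rw [Module.End.mul_apply, Module.End.mul_apply, rfl1_apply, rfl1_apply, map_sub, map_smul,
    SLin_V, ← SLin_V, bil_SLin]

/-- the integral representation of the extended group -/
noncomputable def rhoE : GG →* Module.End ℤ (Fin 7 → ℤ) :=
  liftM rho SLin SLin_pow (fun s => by rw [rho_sm, rho_sm, SLin_rfl1])

theorem rhoE_apply (g : GG) (x : Fin 7 → ℤ) : rhoE g x = rho g.left (pw SLin g.right x) := rfl

theorem rhoE_mul (g h : GG) (x : Fin 7 → ℤ) : rhoE (g * h) x = rhoE g (rhoE h x) := by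
  rw [map_mul]
  rfl

theorem rhoE_inl (w : W) (x : Fin 7 → ℤ) : rhoE (SemidirectProduct.inl w) x = rho w x := by
  rw [rhoE_apply, SemidirectProduct.left_inl, SemidirectProduct.right_inl, pw_one]
  rfl

theorem bil_pow_SLin (k : ℕ) (x y : Fin 7 → ℤ) : bil ((SLin ^ k) x) ((SLin ^ k) y) = bil x y := by
  induction k with
  | zero => simp
  | succ k ih => rw [pow_succ', Module.End.mul_apply, Module.End.mul_apply, bil_SLin, ih]

theorem pow_SLin_V (k : ℕ) (s : Fin 27) : (SLin ^ k) (V s) = V ((sig ^ k) s) := by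
  induction k with
  | zero => simp
  | succ k ih => rw [pow_succ', Module.End.mul_apply, ih, SLin_V, pow_succ', Equiv.Perm.mul_apply]

theorem pow_SLin_p0 (k : ℕ) : (SLin ^ k) p0 = p0 := by
  induction k with
  | zero => simp
  | succ k ih => rw [pow_succ', Module.End.mul_apply, ih, SLin_p0]

theorem bil_rhoE (g : GG) (x y : Fin 7 → ℤ) : bil (rhoE g x) (rhoE g y) = bil x y := by
  rw [rhoE_apply, rhoE_apply, bil_rho]
  exact bil_pow_SLin _ x y

theorem causal_of_p0 {f : (Fin 7 → ℤ) → (Fin 7 → ℤ)} (hf : ∀ x y, bil (f x) (f y) = bil x y)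
    (hp : Causal (f p0)) {x : Fin 7 → ℤ} (hx : Causal x) : Causal (f x) := by
  have h1 : bil p0 x < 0 := timelike_bil_neg p0_causal (by rw [p0_norm]; norm_num) hx
  apply future_of_bil_neg hp
  · rw [hf]; exact hx.1
  · rw [hf]; exact h1

theorem causal_rhoE (g : GG) {x : Fin 7 → ℤ} (hx : Causal x) : Causal (rhoE g x) := by
  apply causal_of_p0 (f := fun x => rhoE g x) (bil_rhoE g) _ hx
  change Causal (rho g.left (pw SLin g.right p0))
  apply causal_rho
  unfold pw
  rw [pow_SLin_p0]
  exact p0_causal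

theorem pw_SLin_V (j : C8) (s : Fin 27) : pw SLin j (V s) = V (pw sig j s) := pow_SLin_V _ s

/-- an element fixing the base vector is a power of the symmetry -/
theorem rhoE_injective : Function.Injective rhoE := by
  rw [injective_iff_map_eq_one]
  intro g hg
  have h1 : rho g.left p0 = p0 := by
    have h2 : rhoE g p0 = p0 := by rw [hg]; rfl
    rw [rhoE_apply] at h2
    unfold pw at h2
    rwa [pow_SLin_p0] at h2
  have h2 : g.left = 1 := eq_one_of_rho_p0 h1
  have h3 : ∀ x, pw SLin g.right x = x := by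
    intro x
    have h4 : rhoE g x = x := by rw [hg]; rfl
    rw [rhoE_apply, h2, map_one] at h4
    exact h4
  have h5 : ∀ j : ZMod 8, pw sig (Multiplicative.ofAdd j) 0 = 0 → j = 0 := by decide +kernel
  have h6 : g.right = 1 := by
    have h7 := h3 (V 0)
    rw [pw_SLin_V] at h7
    have hinj : ∀ s t, V s = V t → s = t := by
      intro s t hst
      by_contra hne
      have h8 := V_norm s
      rcases V_pair s t hne with h9 | h9
      · rw [← hst, h8] at h9; exact absurd h9 (by norm_num)
      · rw [← hst, h8] at h9; exact absurd h9 (by norm_num)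
    exact h5 (Multiplicative.toAdd g.right) (hinj _ _ h7)
  exact SemidirectProduct.ext h2 h6

end Pool.Agent.Helper63.Hyp6
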