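import Pool.Agent.Helper63.Hyp6.Cox

namespace Pool.Agent.Helper63.Hyp6

/-- sets of pairwise orthogonal facets -/
def IsClique (T : Finset (Fin 27)) : Prop := ∀ s ∈ T, ∀ t ∈ T, s ≠ t → adj s t

instance : DecidablePred IsClique := fun T =>
  inferInstanceAs (Decidable (∀ s ∈ T, ∀ t ∈ T, s ≠ t → adj s t))

theorem IsClique.mono {T U : Finset (Fin 27)} (hT : IsClique T) (h : U ⊆ T) : IsClique U :=
  fun s hs t ht hst => hT s (h hs) t (h ht) hst

theorem isClique_D (w : W) : IsClique (D w) := fun _ hs _ ht h => D_adj hs ht h

theorem isClique_empty : IsClique ∅ := fun s hs => by simp at hs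

theorem isClique_singleton (s : Fin 27) : IsClique {s} := by
  intro a ha b hb hab
  rw [Finset.mem_singleton] at ha hb
  exact absurd (ha.trans hb.symm) hab

theorem isClique_insert {T : Finset (Fin 27)} {s : Fin 27} (hT : IsClique T)
    (h : ∀ t ∈ T, adj s t) : IsClique (insert s T) := by
  intro a ha b hb hab
  rw [Finset.mem_insert] at ha hb
  rcases ha with rfl | ha <;> rcases hb with rfl | hb
  · exact absurd rfl hab
  · exact h b hb
  · exact adj_symm (h a ha)
  · exact hT a ha b hb hab

theorem adj_of_insert {T : Finset (Fin 27)} {s : Fin 27} (h : IsClique (insert s T))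
    {t : Fin 27} (ht : t ∈ T) (hst : s ≠ t) : adj s t :=
  h s (Finset.mem_insert_self s T) t (Finset.mem_insert_of_mem ht) hst

/-- product of the reflections of a clique -/
noncomputable def pr (F : Finset (Fin 27)) : W := (F.toList.map sm).prod

theorem pr_empty : pr ∅ = 1 := by
  unfold pr
  simp

theorem pr_insert {F : Finset (Fin 27)} {t : Fin 27} (h : IsClique (insert t F)) (ht : t ∉ F) :
    pr (insert t F) = sm t * pr F := by
  unfold pr
  have h1 : ((insert t F).toList.map sm).Perm ((t :: F.toList).map sm) :=
    (Finset.toList_insert ht).map sm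
  rw [h1.prod_eq', List.map_cons, List.prod_cons]
  rw [List.pairwise_map]
  apply List.Nodup.pairwise_of_forall_ne (Finset.nodup_toList _)
  intro a ha b hb hab
  rw [Finset.mem_toList] at ha hb
  exact sm_comm (h a ha b hb hab)

theorem pr_singleton (t : Fin 27) : pr {t} = sm t := by
  have := pr_insert (F := ∅) (t := t) (by simpa using isClique_singleton t) (by simp)
  rw [pr_empty, mul_one] at this
  exact this

theorem sm_mul_pr {F : Finset (Fin 27)} {t : Fin 27} (h : IsClique (insert t F)) :
    sm t * pr F = pr F * sm t := by
  unfold pr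
  apply Commute.list_prod_right
  intro x hx
  rw [List.mem_map] at hx
  obtain ⟨a, ha, rfl⟩ := hx
  rw [Finset.mem_toList] at ha
  by_cases hat : t = a
  · subst hat; exact Commute.refl _
  · exact sm_comm (adj_of_insert h ha hat)

theorem pr_erase {F : Finset (Fin 27)} {t : Fin 27} (h : IsClique F) (ht : t ∈ F) :
    pr F = sm t * pr (F.erase t) := by
  conv_lhs => rw [← Finset.insert_erase ht]
  rw [pr_insert _ (Finset.notMem_erase t F)]
  rw [Finset.insert_erase ht]
  exact h

theorem pr_mul_self {F : Finset (Fin 27)} (h : IsClique F) : pr F * pr F = 1 := by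
  induction F using Finset.induction_on with
  | empty => rw [pr_empty, one_mul]
  | insert t F ht ih =>
    have h' : IsClique F := h.mono (Finset.subset_insert t F)
    rw [pr_insert h ht, mul_assoc, ← mul_assoc (pr F), ← sm_mul_pr h, mul_assoc, ih h', mul_one,
      sm_sq]

/-- descents of a product -/
theorem mem_D_mul_pr (v : W) {F : Finset (Fin 27)} {s : Fin 27} (h : IsClique (insert s F)) :
    s ∈ D (v * pr F) ↔ ¬ (s ∈ F ↔ s ∈ D v) := by
  induction F using Finset.induction_on generalizing v with
  | empty => rw [pr_empty, mul_one]; simp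
  | insert t F ht ih =>
    have h1 : IsClique (insert t F) := h.mono (Finset.subset_insert _ _)
    have h2 : IsClique (insert s F) := by
      apply h.mono
      intro x hx
      simp only [Finset.mem_insert] at hx ⊢
      tauto
    rw [pr_insert h1 ht, ← mul_assoc, ih (v * sm t) h2]
    by_cases hst : s = t
    · subst hst
      rw [D_mul_self]
      simp [ht]
    · have h3 : adj s t := adj_of_insert h (Finset.mem_insert_self t F) hst
      rw [D_mul_adj v h3, Finset.mem_insert]
      simp [hst]

/-- the vertex of maximal length in the cube `v W_T` -/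
noncomputable def top (v : W) (T : Finset (Fin 27)) : W := v * pr (T \ D v)

theorem subset_D_top (v : W) {T : Finset (Fin 27)} (hT : IsClique T) : T ⊆ D (top v T) := by
  intro s hs
  unfold top
  rw [mem_D_mul_pr v (hT.mono (by
    intro x hx
    rw [Finset.mem_insert, Finset.mem_sdiff] at hx
    rcases hx with rfl | hx
    · exact hs
    · exact hx.1)), Finset.mem_sdiff]
  tauto

theorem top_eq_self {v : W} {T : Finset (Fin 27)} (h : T ⊆ D v) : top v T = v := by
  unfold top
  rw [Finset.sdiff_eq_empty_iff_subset.2 h, pr_empty, mul_one]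

theorem top_mul_sm (v : W) {T : Finset (Fin 27)} (hT : IsClique T) {t : Fin 27} (ht : t ∈ T) :
    top (v * sm t) T = top v T := by
  unfold top
  have hmem : ∀ s ∈ T, s ≠ t → (s ∈ D (v * sm t) ↔ s ∈ D v) := fun s hs hst =>
    D_mul_adj v (hT s hs t ht hst)
  by_cases h : t ∈ D v
  · have h1 : T \ D (v * sm t) = insert t (T \ D v) := by
      ext s
      rw [Finset.mem_insert, Finset.mem_sdiff, Finset.mem_sdiff]
      by_cases hst : s = t
      · subst hst
        rw [D_mul_self]
        tauto
      · by_cases hs : s ∈ T
        · rw [hmem s hs hst]; tauto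
        · tauto
    rw [h1, pr_insert _ (by rw [Finset.mem_sdiff]; tauto), ← mul_assoc, mul_assoc v, sm_sq, mul_one]
    exact hT.mono (by
      intro x hx
      rw [Finset.mem_insert, Finset.mem_sdiff] at hx
      rcases hx with rfl | hx
      · exact ht
      · exact hx.1)
  · have h1 : T \ D v = insert t (T \ D (v * sm t)) := by
      ext s
      rw [Finset.mem_insert, Finset.mem_sdiff, Finset.mem_sdiff]
      by_cases hst : s = t
      · subst hst
        rw [D_mul_self]
        tauto
      · by_cases hs : s ∈ T
        · rw [hmem s hs hst]; tauto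
        · tauto
    rw [h1, pr_insert _ (by rw [Finset.mem_sdiff, D_mul_self]; tauto), ← mul_assoc]
    exact hT.mono (by
      intro x hx
      rw [Finset.mem_insert, Finset.mem_sdiff] at hx
      rcases hx with rfl | hx
      · exact ht
      · exact hx.1)

theorem top_mul_pr (v : W) {T F : Finset (Fin 27)} (hT : IsClique T) (hF : F ⊆ T) :
    top (v * pr F) T = top v T := by
  induction F using Finset.induction_on generalizing v with
  | empty => rw [pr_empty, mul_one]
  | insert t F ht ih =>
    have h1 : IsClique (insert t F) := hT.mono hF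
    rw [pr_insert h1 ht, ← mul_assoc, ih (v * sm t) ((Finset.subset_insert _ _).trans hF),
      top_mul_sm v hT (hF (Finset.mem_insert_self _ _))]

theorem top_top (v : W) {T : Finset (Fin 27)} (hT : IsClique T) : top (top v T) T = top v T :=
  top_eq_self (subset_D_top v hT)

theorem exists_top (v : W) {T : Finset (Fin 27)} (hT : IsClique T) :
    ∃ F ⊆ T, v = top v T * pr F := by
  refine ⟨T \ D v, Finset.sdiff_subset, ?_⟩
  unfold top
  rw [mul_assoc, pr_mul_self (hT.mono Finset.sdiff_subset), mul_one]

/-- `pr` separates subsets of a clique -/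
theorem pr_injOn {T F G : Finset (Fin 27)} (hT : IsClique T) (hF : F ⊆ T) (hG : G ⊆ T)
    (h : pr F = pr G) : F = G := by
  ext s
  by_cases hs : s ∈ T
  · have h1 := mem_D_mul_pr 1 (F := F) (s := s) (hT.mono (by
      intro x hx
      rw [Finset.mem_insert] at hx
      rcases hx with rfl | hx
      · exact hs
      · exact hF hx))
    have h2 := mem_D_mul_pr 1 (F := G) (s := s) (hT.mono (by
      intro x hx
      rw [Finset.mem_insert] at hx
      rcases hx with rfl | hx
      · exact hs
      · exact hG hx))
    rw [h, D_one] at h1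
    rw [D_one] at h2
    rw [h1] at h2
    simp at h2
    exact h2
  · exact ⟨fun h => absurd (hF h) hs, fun h => absurd (hG h) hs⟩

end Pool.Agent.Helper63.Hyp6
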