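import Pool.Agent.Helper63.Hyp6.Check

namespace Pool.Agent.Helper63.Hyp6

/-- two vectors of the closed chamber in the same orbit are equal, and the group element is a
product of walls through them -/
theorem chamber_unique {z : Fin 7 → ℤ} (hz : Causal z) (hzz : bil z z < 0)
    (hz1 : ∀ s, bil z (V s) ≤ 0) (n : ℕ) : ∀ w : W, cs.length w = n →
    (∀ s, bil (rho w⁻¹ z) (V s) ≤ 0) →
    rho w⁻¹ z = z ∧ ∃ F : Finset (Fin 27), (∀ s ∈ F, bil z (V s) = 0) ∧ w = pr F := by
  induction n with
  | zero =>
    intro w hw _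
    rw [cs.length_eq_zero_iff] at hw
    subst hw
    exact ⟨by rw [inv_one, map_one]; rfl, ∅, by simp, pr_empty.symm⟩
  | succ n ih =>
    intro w hw hz'
    have hw1 : w ≠ 1 := by
      intro h
      rw [h, cs.length_one] at hw
      omega
    obtain ⟨s, hs⟩ := cs.exists_rightDescent_of_ne_one hw1
    have hlen : cs.length (w * sm s) = n := by
      have h1 : cs.length (w * sm s) + 1 = cs.length w := cs.isRightDescent_iff.1 hs
      omega
    have hzero : bil (rho w⁻¹ z) (V s) = 0 := by
      by_contra hne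
      have hlt : bil (rho w⁻¹ z) (V s) ≤ -1 := by
        have := hz' s
        omega
      set b : ℤ := bil p0 (rho w (V s)) with hb
      set k : ℤ := |b| with hk
      have hk0 : 0 ≤ k := abs_nonneg b
      have hbk : b ≤ k := le_abs_self b
      set q : Fin 7 → ℤ := (2 * k) • z + p0 with hq
      have hqc : Causal q := by
        refine ⟨?_, ?_⟩
        · rw [hq, bil_add_left, bil_add_right, bil_add_right, bil_smul_left, bil_smul_right,
            bil_smul_left, bil_smul_right, p0_norm, bil_comm p0 z]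
          have h1 : bil z p0 < 0 := timelike_bil_neg hz hzz p0_causal
          nlinarith [mul_nonneg hk0 hk0]
        · rw [hq]
          have h1 : 0 < z 0 := hz.2
          have h2 : 0 < p0 0 := p0_causal.2
          have h3 : 0 ≤ 2 * k * z 0 := by positivity
          change 0 < 2 * k * z 0 + p0 0
          omega
      have hodd : AllOdd q := by
        intro i
        rw [hq]
        change Odd (2 * k * z i + p0 i)
        rw [mul_assoc]
        exact (even_two_mul _).add_odd (p0_odd i)
      have hneg : ∀ t, bil q (V t) < 0 := by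
        intro t
        rw [hq, bil_add_left, bil_smul_left, V_p0]
        have := hz1 t
        nlinarith
      have h2 := (descent_iff hqc hodd hneg w s).1 hs
      rw [hq, bil_add_left, bil_smul_left, bil_rho_left w z] at h2
      nlinarith
    have hrw : rho (w * sm s)⁻¹ z = rho w⁻¹ z := by
      rw [mul_inv_rev, rho_mul]
      have h1 : (sm s)⁻¹ = sm s := cs.inv_simple s
      rw [h1, rho_sm, rfl1_orth hzero]
    obtain ⟨h1, F, hF, hwF⟩ := ih (w * sm s) hlen (by rw [hrw]; exact hz')
    rw [hrw] at h1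
    refine ⟨h1, ?_⟩
    rw [h1] at hzero
    have hTc : ∀ G : Finset (Fin 27), (∀ t ∈ G, bil z (V t) = 0) → IsClique G :=
      fun G hG a ha b hb hab => clique_of_zero hz hzz hab (hG a ha) (hG b hb)
    have hw2 : w = pr F * sm s := by rw [← hwF, mul_assoc, sm_sq, mul_one]
    have hins : ∀ t ∈ insert s F, bil z (V t) = 0 := by
      intro t ht
      rw [Finset.mem_insert] at ht
      rcases ht with rfl | ht
      · exact hzero
      · exact hF t ht
    have hcl := hTc _ hins
    by_cases hsF : s ∈ F
    · refine ⟨F.erase s, fun t ht => hF t (Finset.mem_of_mem_erase ht), ?_⟩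
      rw [hw2, ← sm_mul_pr hcl, pr_erase (hTc F hF) hsF, ← mul_assoc, sm_sq, one_mul]
    · refine ⟨insert s F, hins, ?_⟩
      rw [hw2, pr_insert hcl hsF, sm_mul_pr hcl]

/-- every causal vector can be moved to the closed chamber -/
theorem exists_chamber {y : Fin 7 → ℤ} (hy : Causal y) :
    ∃ u : W, ∀ s, bil (rho u y) (V s) ≤ 0 := by
  have hp0 : bil p0 p0 < 0 := by rw [p0_norm]; norm_num
  have key : ∀ n : ℕ, ∀ y : Fin 7 → ℤ, Causal y → - bil p0 y ≤ n →
      ∃ u : W, ∀ s, bil (rho u y) (V s) ≤ 0 := by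
    intro n
    induction n with
    | zero =>
      intro y hy hn
      have := timelike_bil_neg p0_causal hp0 hy
      push_cast at hn
      omega
    | succ n ih =>
      intro y hy hn
      by_cases h : ∀ s, bil y (V s) ≤ 0
      · exact ⟨1, by intro s; rw [map_one]; exact h s⟩
      · push Not at h
        obtain ⟨s, hs⟩ := h
        obtain ⟨u, hu⟩ := ih (rfl1 (V s) y) (causal_rfl1 (V_norm s) hy) (by
          rw [rfl1_apply, bil_sub_right, bil_smul_right, V_p0]
          push_cast at hn
          omega)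
        refine ⟨u * sm s, fun t => ?_⟩
        rw [rho_mul_sm]
        exact hu t
  exact key (- bil p0 y).toNat y hy (Int.self_le_toNat _)

theorem causal_sum {ι : Type*} (A : Finset ι) (hA : A.Nonempty) (f : ι → Fin 7 → ℤ)
    (hf : ∀ i ∈ A, Causal (f i)) (hff : ∀ i ∈ A, bil (f i) (f i) < 0) :
    Causal (∑ i ∈ A, f i) ∧ bil (∑ i ∈ A, f i) (∑ i ∈ A, f i) < 0 := by
  induction hA using Finset.Nonempty.cons_induction with
  | singleton a =>
    rw [Finset.sum_singleton]
    exact ⟨hf a (Finset.mem_singleton_self a), hff a (Finset.mem_singleton_self a)⟩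
  | cons a A ha hA ih =>
    rw [Finset.sum_cons]
    have h1 := hf a (Finset.mem_cons_self a A)
    have h2 := hff a (Finset.mem_cons_self a A)
    obtain ⟨h3, h4⟩ := ih (fun i hi => hf i (Finset.mem_cons_of_mem hi))
      (fun i hi => hff i (Finset.mem_cons_of_mem hi))
    have h5 := timelike_bil_neg h1 h2 h3
    have h6 : bil (f a + ∑ i ∈ A, f i) (f a + ∑ i ∈ A, f i) < 0 := by
      rw [bil_add_left, bil_add_right, bil_add_right, bil_comm (∑ i ∈ A, f i) (f a)]
      linarith
    refine ⟨⟨h6.le, ?_⟩, h6⟩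
    have h7 := h1.2
    have h8 := h3.2
    rw [Pi.add_apply]
    linarith

theorem conj_actX {n : ℕ} {g : GG} (hg : g ∈ Gam n) (u : GG) :
    actX (u * g * u⁻¹) (actX u 0) = actX u 0 := by
  have h : (actX u)⁻¹ (actX u 0) = 0 := by
    rw [← Equiv.Perm.mul_apply, inv_mul_cancel, Equiv.Perm.one_apply]
  rw [map_mul, map_mul, Equiv.Perm.mul_apply, Equiv.Perm.mul_apply, map_inv, h, hg.1]

theorem conj_eq_one {g u : GG} (h : u * g * u⁻¹ = 1) : g = 1 := by
  have h1 : g = u⁻¹ * (u * g * u⁻¹) * u := by group
  rw [h1, h]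
  group

/-- the groups are torsion free -/
theorem Gam_torsionFree (n : ℕ) (g : GG) (hg : g ∈ Gam n) (m : ℕ) (hm : 0 < m)
    (hgm : g ^ m = 1) : g = 1 := by
  have hp0 : bil p0 p0 < 0 := by rw [p0_norm]; norm_num
  set y : Fin 7 → ℤ := ∑ i ∈ Finset.range m, rhoE (g ^ i) p0 with hy
  obtain ⟨hyc, hyy⟩ := causal_sum (Finset.range m) (Finset.nonempty_range_iff.2 (by omega))
    (fun i => rhoE (g ^ i) p0) (fun i _ => causal_rhoE _ p0_causal)
    (fun i _ => by rw [bil_rhoE]; exact hp0)
  rw [← hy] at hyc hyy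
  have hgy : rhoE g y = y := by
    rw [hy, map_sum]
    have h1 : ∀ i, rhoE g (rhoE (g ^ i) p0) = rhoE (g ^ (i + 1)) p0 := by
      intro i
      rw [← rhoE_mul, pow_succ']
    simp_rw [h1]
    have h2 := Finset.sum_range_succ (fun i => rhoE (g ^ i) p0) m
    have h3 := Finset.sum_range_succ' (fun i => rhoE (g ^ i) p0) m
    rw [h2] at h3
    simp only [hgm, pow_zero] at h3
    exact (add_right_cancel h3).symm
  obtain ⟨u, hu⟩ := exists_chamber hyc
  set z := rho u y with hz
  have hzc : Causal z := causal_rho u hyc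
  have hzz : bil z z < 0 := by rw [hz, bil_rho]; exact hyy
  set v : GG := SemidirectProduct.inl u with hv
  set h : GG := v * g * v⁻¹ with hh
  have hhz : rhoE h z = z := by
    have h1 : z = rhoE v y := (rhoE_inl u y).symm
    rw [h1, ← rhoE_mul, hh, inv_mul_cancel_right, rhoE_mul, hgy]
  -- z moved by the symmetry part
  have hSz : pw SLin h.right z = rho h.left⁻¹ z := by
    conv_rhs => rw [← hhz, rhoE_apply, rho_inv_rho]
  have hSV : ∀ s, bil (pw SLin h.right z) (V (pw sig h.right s)) = bil z (V s) := by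
    intro s
    rw [← pw_SLin_V]
    exact bil_pow_SLin _ _ _
  have hz' : ∀ s, bil (rho h.left⁻¹ z) (V s) ≤ 0 := by
    intro s
    rw [← hSz]
    have h1 := hSV ((pw sig h.right)⁻¹ s)
    have h2 : (pw sig h.right) ((pw sig h.right)⁻¹ s) = s := by
      rw [← Equiv.Perm.mul_apply, mul_inv_cancel, Equiv.Perm.one_apply]
    rw [h2] at h1
    rw [h1]
    exact hu _
  obtain ⟨h1, F, hF, hhF⟩ := chamber_unique hzc hzz hu _ h.left rfl hz'
  rw [← hSz] at h1
  set T : Finset (Fin 27) := Finset.univ.filter (fun s => bil z (V s) = 0) with hT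
  have hTc : IsClique T := by
    intro a ha b hb hab
    rw [hT, Finset.mem_filter] at ha hb
    exact clique_of_zero hzc hzz hab ha.2 hb.2
  have hTinv : mp (sg h) T = T := by
    have h2 : ∀ s ∈ mp (sg h) T, s ∈ T := by
      intro s hs
      rw [mem_mp] at hs
      obtain ⟨t, ht, rfl⟩ := hs
      rw [hT, Finset.mem_filter] at ht ⊢
      refine ⟨Finset.mem_univ _, ?_⟩
      rw [sg_apply]
      have h3 := hSV t
      rw [h1] at h3
      rw [h3]
      exact ht.2
    exact Finset.eq_of_subset_of_card_le h2 (by rw [card_mp])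
  have hFT : F ⊆ T := by
    intro s hs
    rw [hT, Finset.mem_filter]
    exact ⟨Finset.mem_univ _, hF s hs⟩
  exact conj_eq_one (key_check hTc hTinv hFT hhF (conj_actX hg v))

/-- the groups act freely on cubes -/
theorem Gam_free (n k : ℕ) (g : GG) (hg : g ∈ Gam n) (c : K k) (h : g • c = c) : g = 1 := by
  have h1 := congrArg Subtype.val h
  rw [smul_val] at h1
  have h2 : mp (sg g) c.1.2 = c.1.2 := congrArg Prod.snd h1
  have h3 : top (act g c.1.1) c.1.2 = c.1.1 := by
    have := congrArg Prod.fst h1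
    simpa only [h2] using this
  obtain ⟨F, hF, hF2⟩ := exists_top (act g c.1.1) c.clique
  rw [h3] at hF2
  set u : GG := (SemidirectProduct.inl c.1.1)⁻¹ with hu
  apply conj_eq_one (u := u)
  have hleft : (u * g * u⁻¹).left = pr F := by
    have h4 := act_eq g c.1.1
    have h5 : u * g * u⁻¹ = SemidirectProduct.inl (pr F) * SemidirectProduct.inr g.right := by
      rw [mul_assoc, hu, inv_inv, h4, hF2, map_mul, ← mul_assoc, ← mul_assoc, inv_mul_cancel,
        one_mul]
    rw [h5]
    simp
  have hright : sg (u * g * u⁻¹) = sg g := by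
    rw [sg_apply, sg_apply]
    congr 1
    simp [hu]
  exact key_check c.clique (by rw [hright]; exact h2) hF hleft (conj_actX hg u)

end Pool.Agent.Helper63.Hyp6
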